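import Pool.Agent.Q63.KZ.B

/-!
# Project KZ, job DE: the Euler product
-/

set_option autoImplicit false

namespace Pool.Agent.Q63.KZ

open Finset Filter Topology MeasureTheory
open scoped Classical
open Pool.Agent.W76.MO (hh nc cell lp Rough hh_pos floor_le_i hh_dvd nc_mul)
open Q236.CM (LP LP_one LP_mul LP_prime LP_sqf LP_nonneg LP_le LP_pow LP_mul_fun LP_div)
open Pool.Agent.Q18.KZ

/-- sum of `aV` over the primes -/
theorem aV_sum {η : ℝ} {V : ℕ → Bool} (h : EvE η V) (N : ℕ) :
    ∑ p ∈ (range N).filter Nat.Prime, aV V p ≤ η := by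
  refine le_trans ?_ (h N)
  have h1 : ∑ p ∈ (range N).filter Nat.Prime, aV V p ≤ ∑ p ∈ range N, aV V p :=
    sum_le_sum_of_subset_of_nonneg (filter_subset _ _) fun p _ _ => aV_nonneg V p
  refine h1.trans ?_
  rw [sum_filter]
  apply le_of_eq
  refine sum_congr rfl fun p _ => ?_
  unfold aV
  rfl

theorem t_DE (hLPE : S_LPE) (_hDG : S_DG) (hDM : S_DM) (hDU : S_DU) : S_DE := by
  intro E ε hε
  obtain ⟨η₁, J₁, hη₁, hM⟩ := hDM E
  obtain ⟨J₂, hU⟩ := hDU E
  have hδ := E.hδ
  obtain ⟨t, ht0, ht1, ht2⟩ : ∃ t : ℝ, 0 < t ∧ t ≤ 1 / 2 ∧ Real.exp (2 * t) - 1 ≤ ε := by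
    refine ⟨min (1 / 2) (Real.log (1 + ε) / 2), ?_, min_le_left _ _, ?_⟩
    · apply lt_min (by norm_num)
      have := Real.log_pos (by linarith : 1 < 1 + ε)
      linarith
    · have h1 : 2 * min (1 / 2) (Real.log (1 + ε) / 2) ≤ Real.log (1 + ε) := by
        have := min_le_right (1 / 2 : ℝ) (Real.log (1 + ε) / 2)
        linarith
      have h2 := Real.exp_le_exp.2 h1
      rw [Real.exp_log (by linarith)] at h2
      linarith
  have hlim1 : Tendsto (fun j : ℕ => (2 : ℝ) * (1 / (j : ℝ))) atTop (𝓝 (2 * 0)) :=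
    tendsto_one_div_atTop_nhds_zero_nat.const_mul 2
  have hlim2 : Tendsto (fun j : ℕ => (2 : ℝ) * (2 : ℝ) ^ (-((j : ℝ) / 20000))) atTop (𝓝 (2 * 0)) := by
    apply Tendsto.const_mul
    have h1 : Tendsto (fun x : ℝ => (2 : ℝ) ^ (-x)) atTop (𝓝 0) := by
      have h2 : Tendsto (fun x : ℝ => (1 / 2 : ℝ) ^ x) atTop (𝓝 0) :=
        tendsto_rpow_atTop_of_base_lt_one _ (by norm_num) (by norm_num)
      refine h2.congr fun x => ?_
      rw [Real.rpow_neg (by norm_num), ← Real.inv_rpow (by norm_num)]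
      norm_num
    have h3 : Tendsto (fun j : ℕ => (j : ℝ) / 20000) atTop atTop :=
      tendsto_natCast_atTop_atTop.atTop_div_const (by norm_num)
    exact h1.comp h3
  rw [mul_zero] at hlim1 hlim2
  have hev1 := hlim1.eventually (gt_mem_nhds (by positivity : (0 : ℝ) < t / 4))
  have hev2 := hlim2.eventually (gt_mem_nhds (by positivity : (0 : ℝ) < t / 4))
  obtain ⟨J₃, hJ₃⟩ := eventually_atTop.1 (hev1.and hev2)
  refine ⟨min η₁ (t / 4), max (max J₁ J₂) J₃, lt_min hη₁ (by positivity), ?_⟩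
  intro η j V hη hηle hj hEv
  have hjJ₁ : J₁ ≤ j := le_trans (le_trans (le_max_left _ _) (le_max_left _ _)) hj
  have hjJ₂ : J₂ ≤ j := le_trans (le_trans (le_max_right _ _) (le_max_left _ _)) hj
  have hjJ₃ : J₃ ≤ j := le_trans (le_max_right _ _) hj
  have hM' := hM η j V hη (hηle.trans (min_le_left _ _)) hjJ₁ hEv
  have hU' := hU j hjJ₂
  obtain ⟨hs1, hs2⟩ := hJ₃ j hjJ₃
  have hηt : η ≤ t / 4 := hηle.trans (min_le_right _ _)
  have haV := fun N => aV_sum hEv.esv N
  -- weights
  have hle1 : ∀ p : ℕ, p.Prime → (p : ℝ) ^ (-(E.δ / 2)) ≤ 1 := by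
    intro p hp
    apply Real.rpow_le_one_of_one_le_of_nonpos
    · exact_mod_cast hp.one_lt.le
    · linarith
  have hge1 : ∀ p : ℕ, p.Prime → 1 ≤ (p : ℝ) ^ (1 / 8000 : ℝ) := by
    intro p hp
    apply Real.one_le_rpow
    · exact_mod_cast hp.one_lt.le
    · norm_num
  have hghS : ∀ N : ℕ, ∑ p ∈ (range N).filter Nat.Prime, E.gh V j p ≤ (2 : ℝ) ^ (-((j : ℝ) / 20000)) := by
    intro N
    refine le_trans (sum_le_sum fun p hp => ?_) (hM' N)
    have hpp := (mem_filter.1 hp).2
    have h1 := gh_nonneg E V j p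
    have h2 := hge1 p hpp
    nlinarith
  constructor
  · intro M
    set F : ℕ → ℝ := fun p => if p.Prime then (aV V p + 2 * (E.gu j p + E.gh V j p)) * (p : ℝ) ^ (-(E.δ / 2))
      else 0 with hF
    have hF0 : ∀ p, 0 ≤ F p := by
      intro p
      simp only [hF]
      have h1 := aV_nonneg V p
      have h2 := gu_nonneg E j p
      have h3 := gh_nonneg E V j p
      split_ifs <;> positivity
    have hFs : ∀ N : ℕ, ∑ p ∈ (range N).filter Nat.Prime, F p ≤ t := by
      intro N
      have h1 : ∑ p ∈ (range N).filter Nat.Prime, F p ≤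
          ∑ p ∈ (range N).filter Nat.Prime, (aV V p + 2 * (E.gu j p * (p : ℝ) ^ (-(E.δ / 2))) +
            2 * E.gh V j p) := by
        refine sum_le_sum fun p hp => ?_
        have hpp := (mem_filter.1 hp).2
        simp only [hF, if_pos hpp]
        have h1 := aV_nonneg V p
        have h2 := gu_nonneg E j p
        have h3 := gh_nonneg E V j p
        have h4 := hle1 p hpp
        have h5 : 0 ≤ (p : ℝ) ^ (-(E.δ / 2)) := by positivity
        nlinarith [mul_le_of_le_one_right h1 h4, mul_le_of_le_one_right h3 h4]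
      rw [sum_add_distrib, sum_add_distrib, ← mul_sum, ← mul_sum] at h1
      have h2 := haV N
      have h3 := hU' N
      have h4 := hghS N
      linarith
    have hF2 : ∀ p, 0 ≤ F p ∧ F p ≤ 1 / 2 := by
      intro p
      refine ⟨hF0 p, ?_⟩
      by_cases hp : p.Prime
      · refine le_trans ?_ ((hFs (p + 1)).trans ht1)
        apply single_le_sum (f := F) (fun q _ => hF0 q)
        rw [mem_filter, mem_range]
        exact ⟨Nat.lt_succ_self p, hp⟩
      · simp only [hF, if_neg hp]
        norm_num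
    have h1 := hLPE F hF2 M
    have h2 : ∑ m ∈ Icc 2 M, E.AA V j m * (m : ℝ) ^ (-(E.δ / 2)) = ∑ m ∈ Icc 2 M, LP F m := by
      refine sum_congr rfl fun m hm => ?_
      rw [mem_Icc] at hm
      have hm0 : m ≠ 0 := by omega
      have h3 : LP F m = LP (fun p => (aV V p + 2 * (E.gu j p + E.gh V j p)) * (p : ℝ) ^ (-(E.δ / 2))) m := by
        apply LP_congr hm0
        intro p hp _
        simp only [hF, if_pos hp]
      rw [h3, LP_mul_fun, LP_pow _ hm0]
      rfl
    rw [h2]
    refine h1.trans (le_trans ?_ ht2)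
    have h4 := hFs (M + 1)
    have h5 : Real.exp (2 * ∑ p ∈ (range (M + 1)).filter Nat.Prime, F p) ≤ Real.exp (2 * t) :=
      Real.exp_le_exp.2 (by linarith)
    linarith
  · set F : ℕ → ℝ := fun p => if p.Prime then aV V p + 2 * E.gh V j p else 0 with hF
    have hF0 : ∀ p, 0 ≤ F p := by
      intro p
      simp only [hF]
      have h1 := aV_nonneg V p
      have h3 := gh_nonneg E V j p
      split_ifs <;> positivity
    have hFs : ∀ N : ℕ, ∑ p ∈ (range N).filter Nat.Prime, F p ≤ t := by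
      intro N
      have h1 : ∑ p ∈ (range N).filter Nat.Prime, F p ≤
          ∑ p ∈ (range N).filter Nat.Prime, (aV V p + 2 * E.gh V j p) := by
        refine sum_le_sum fun p hp => ?_
        have hpp := (mem_filter.1 hp).2
        simp only [hF, if_pos hpp]
        exact le_rfl
      rw [sum_add_distrib, ← mul_sum] at h1
      have h2 := haV N
      have h4 := hghS N
      linarith
    have hF2 : ∀ p, 0 ≤ F p ∧ F p ≤ 1 / 2 := by
      intro p
      refine ⟨hF0 p, ?_⟩
      by_cases hp : p.Prime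
      · refine le_trans ?_ ((hFs (p + 1)).trans ht1)
        apply single_le_sum (f := F) (fun q _ => hF0 q)
        rw [mem_filter, mem_range]
        exact ⟨Nat.lt_succ_self p, hp⟩
      · simp only [hF, if_neg hp]
        norm_num
    have h1 := hLPE F hF2 (2 ^ j)
    have h2 : ∑ m ∈ Icc 2 (2 ^ j), E.AA V j m = ∑ m ∈ Icc 2 (2 ^ j), LP F m := by
      refine sum_congr rfl fun m hm => ?_
      rw [mem_Icc] at hm
      have hm0 : m ≠ 0 := by omega
      unfold KEnv.AA
      apply LP_congr hm0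
      intro p hp hd
      simp only [hF, if_pos hp]
      have h3 : p ≤ 2 ^ j := (Nat.le_of_dvd (by omega) hd).trans hm.2
      have h4 : E.gu j p = 0 := by
        unfold KEnv.gu
        rw [if_neg]
        rintro ⟨_, h5, _⟩
        omega
      rw [h4, zero_add]
    rw [h2]
    refine h1.trans (le_trans ?_ ht2)
    have h4 := hFs (2 ^ j + 1)
    have h5 : Real.exp (2 * ∑ p ∈ (range (2 ^ j + 1)).filter Nat.Prime, F p) ≤ Real.exp (2 * t) :=
      Real.exp_le_exp.2 (by linarith)
    linarith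

end Pool.Agent.Q63.KZ
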