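import Pool.Agent.Q63.KZ.B

/-!
# Project KZ, job DEC: decomposition into near and far part
-/

set_option autoImplicit false

namespace Pool.Agent.Q63.KZ

open Finset Filter Topology MeasureTheory
open scoped Classical
open Pool.Agent.W76.MO (hh nc cell lp Rough hh_pos floor_le_i hh_dvd nc_mul)
open Q236.CM (LP LP_one LP_mul LP_prime LP_sqf LP_nonneg LP_le LP_pow LP_mul_fun LP_div)
open Pool.Agent.Q18.KZ

/-- a prime that belongs to a multiplier of `VR i` in a cell of scale `i` is large -/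
theorem Lq_large (E : KEnv) {i k k' v q : ℕ} (hi : E.i₁ ≤ i) (hk : k ∈ E.B1 i) (hk' : k' < nc E.δ i)
    (hv : v ∈ E.Us i k) (hq : q ∈ E.Lq i k' v) : (2 : ℝ) ^ (0.615 * (i : ℝ)) ≤ q := by
  have h1 := E.us_sub i hi k hk hv
  unfold VR at h1
  rw [mem_filter] at h1
  have hv2 := h1.2.2.2
  unfold KEnv.Lq LqD at hq
  rw [mem_filter] at hq
  have h2 := (cell_loc E.δ E.hδ hk' hq.2.2.2).1
  have h3 : (2 : ℝ) ^ (i : ℝ) ≤ (v : ℝ) * q := by
    rw [Real.rpow_natCast]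
    exact_mod_cast h2.le
  have h4 : (2 : ℝ) ^ (i : ℝ) = (2 : ℝ) ^ (0.385 * (i : ℝ)) * (2 : ℝ) ^ (0.615 * (i : ℝ)) := by
    rw [← Real.rpow_add (by norm_num)]
    congr 1
    ring
  have h5 : (2 : ℝ) ^ (0.385 * (i : ℝ)) * (2 : ℝ) ^ (0.615 * (i : ℝ)) ≤
      (2 : ℝ) ^ (0.385 * (i : ℝ)) * q := by
    rw [← h4]
    exact h3.trans (mul_le_mul_of_nonneg_right hv2 (Nat.cast_nonneg q))
  exact le_of_mul_le_mul_left h5 (by positivity)

theorem G1_zero (E : KEnv) (V : ℕ → Bool) {i k q : ℕ} (hi : E.i₁ ≤ i) (hk : k ∈ E.B1 i)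
    (hq : (q : ℝ) < (2 : ℝ) ^ (0.615 * (i : ℝ))) : E.G1 V i k q = 0 := by
  unfold KEnv.G1
  have hk1 : k < nc E.δ i := E.sub i k (mem_union_left _ hk)
  have hk2 : E.pi i k < nc E.δ i := (E.pi_good i hi k hk).1
  rw [sum_eq_zero, mul_zero]
  intro v hv
  rw [mem_filter] at hv
  rw [if_neg, if_neg, sub_zero, mul_zero]
  · intro h
    have := Lq_large E hi hk hk2 hv.1 h
    linarith
  · intro h
    have := Lq_large E hi hk hk1 hv.1 h
    linarith

theorem fr_zero (E : KEnv) (V : ℕ → Bool) {j I q : ℕ} (z : ℕ × ℕ → ℝ) (hj : E.i₁ ≤ j) (hI : 1 ≤ I)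
    (hq : (q : ℝ) ≤ (2 : ℝ) ^ (0.7 * (I : ℝ))) : E.fr V j I z q = 0 := by
  unfold KEnv.fr
  apply sum_eq_zero
  intro i hi
  split_ifs with h
  · rfl
  · apply sum_eq_zero
    intro k hk
    unfold KEnv.hs at hi
    rw [mem_filter] at hi
    rw [not_le] at h
    have hI' : (1 : ℝ) ≤ I := by exact_mod_cast hI
    have h1 : (q : ℝ) < (2 : ℝ) ^ (0.615 * (i : ℝ)) := by
      refine lt_of_le_of_lt hq ?_
      apply Real.rpow_lt_rpow_of_exponent_lt (by norm_num)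
      nlinarith
    rw [G1_zero E V (hj.trans hi.2) hk h1, mul_zero]

theorem fp_eq (E : KEnv) (V : ℕ → Bool) (j I : ℕ) (z : ℕ × ℕ → ℝ) (p : ℕ) :
    E.fp V j z p = E.fn V j I z p + E.fr V j I z p := by
  unfold KEnv.fp KEnv.fn KEnv.fr
  rw [add_assoc (aV V p + z (KEnv.sc p, E.kx p) * E.gu j p), ← sum_add_distrib]
  congr 1
  refine sum_congr rfl fun i _ => ?_
  split_ifs <;> ring

theorem t_DEC (_hFF : S_FF) : S_DEC := by
  intro E
  refine ⟨1, max E.i₁ 10, one_pos, ?_⟩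
  intro η j V _ _ hj _ I n z hI hn1 hn2
  have hj1 : E.i₁ ≤ j := le_trans (le_max_left _ _) hj
  have hI10 : 10 ≤ I := le_trans (le_trans (le_max_right _ _) hj) hI
  have hI10' : (10 : ℝ) ≤ I := by exact_mod_cast hI10
  have hn0 : n ≠ 0 := by omega
  have hn2' : (n : ℝ) ≤ (2 : ℝ) ^ ((I : ℝ) + 1) := by
    have h5 : (2 : ℝ) ^ ((I : ℝ) + 1) = ((2 ^ (I + 1) : ℕ) : ℝ) := by
      push_cast
      rw [← Real.rpow_natCast]
      push_cast
      rfl
    rw [h5]
    exact_mod_cast hn2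
  have hfr : ∀ q : ℕ, (q : ℝ) ≤ (2 : ℝ) ^ (0.7 * (I : ℝ)) → E.fp V j z q = E.fn V j I z q := by
    intro q hq
    rw [fp_eq E V j I z q, fr_zero E V z hj1 (by omega) hq, add_zero]
  by_cases hex : ∃ q ∈ n.primeFactors, (2 : ℝ) ^ (0.7 * (I : ℝ)) < q
  · obtain ⟨q, hq, hql⟩ := hex
    obtain ⟨hqp, hqd, _⟩ := Nat.mem_primeFactors.1 hq
    have hsum : ∑ q ∈ n.primeFactors.filter (fun q : ℕ => (2 : ℝ) ^ (0.7 * (I : ℝ)) < q),
        E.fr V j I z q * E.ff V j z (n / q) = E.fr V j I z q * E.ff V j z (n / q) := by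
      apply sum_eq_single q
      · intro r hr hrq
        exfalso
        rw [mem_filter] at hr
        obtain ⟨hrp, hrd, _⟩ := Nat.mem_primeFactors.1 hr.1
        have hcop : Nat.Coprime r q := (Nat.coprime_primes hrp hqp).2 hrq
        have h1 : r * q ∣ n := hcop.mul_dvd_of_dvd_of_dvd hrd hqd
        have h2 : r * q ≤ n := Nat.le_of_dvd (by omega) h1
        have h3 : (r : ℝ) * q ≤ n := by exact_mod_cast h2
        have h4 : (2 : ℝ) ^ (0.7 * (I : ℝ)) * (2 : ℝ) ^ (0.7 * (I : ℝ)) < (r : ℝ) * q :=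
          mul_lt_mul'' hr.2 hql (by positivity) (by positivity)
        rw [← Real.rpow_add (by norm_num)] at h4
        have h5 : (2 : ℝ) ^ ((I : ℝ) + 1) ≤ (2 : ℝ) ^ (0.7 * (I : ℝ) + 0.7 * (I : ℝ)) := by
          apply Real.rpow_le_rpow_of_exponent_le (by norm_num)
          linarith
        linarith
      · intro h
        exact absurd (mem_filter.2 ⟨hq, hql⟩) h
    rw [hsum]
    have hfl : ∀ p : ℕ, p.Prime → p ∣ n / q → E.fp V j z p = E.fn V j I z p := by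
      intro p hp hd
      apply hfr
      obtain ⟨m, hm⟩ := hqd
      have hm0 : m ≠ 0 := by rintro rfl; simp at hm; omega
      rw [hm, Nat.mul_div_cancel_left m hqp.pos] at hd
      have h1 : p ≤ m := Nat.le_of_dvd (Nat.pos_of_ne_zero hm0) hd
      have h2 : (q : ℝ) * m = n := by rw [hm]; push_cast; ring
      have h3 : (2 : ℝ) ^ (0.7 * (I : ℝ)) * m ≤ (2 : ℝ) ^ ((I : ℝ) + 1) := by
        refine le_trans ?_ hn2'
        rw [← h2]
        exact mul_le_mul_of_nonneg_right hql.le (Nat.cast_nonneg m)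
      have h4 : (2 : ℝ) ^ ((I : ℝ) + 1) = (2 : ℝ) ^ (0.7 * (I : ℝ)) * (2 : ℝ) ^ (0.3 * (I : ℝ) + 1) := by
        rw [← Real.rpow_add (by norm_num)]
        congr 1
        ring
      rw [h4] at h3
      have h5 : (m : ℝ) ≤ (2 : ℝ) ^ (0.3 * (I : ℝ) + 1) := le_of_mul_le_mul_left h3 (by positivity)
      have h6 : (2 : ℝ) ^ (0.3 * (I : ℝ) + 1) ≤ (2 : ℝ) ^ (0.7 * (I : ℝ)) := by
        apply Real.rpow_le_rpow_of_exponent_le (by norm_num)
        linarith
      have h7 : (p : ℝ) ≤ m := by exact_mod_cast h1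
      linarith
    have hnq : n / q ≠ 0 := by
      obtain ⟨m, hm⟩ := hqd
      have hm0 : m ≠ 0 := by rintro rfl; simp at hm; omega
      rw [hm, Nat.mul_div_cancel_left m hqp.pos]
      exact hm0
    have h1 : LP (E.fp V j z) (n / q) = LP (E.fn V j I z) (n / q) := LP_congr hnq hfl
    show LP (E.fp V j z) n = LP (E.fn V j I z) n + E.fr V j I z q * LP (E.fp V j z) (n / q)
    rw [LP_div (E.fp V j z) hn0 hqp hqd, LP_div (E.fn V j I z) hn0 hqp hqd, h1, fp_eq E V j I z q]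
    ring
  · push Not at hex
    rw [filter_eq_empty_iff.2 (fun q hq => by have := hex q hq; linarith), sum_empty, add_zero]
    apply LP_congr hn0
    intro p hp hd
    exact hfr p (hex p (Nat.mem_primeFactors.2 ⟨hp, hd, hn0⟩))

end Pool.Agent.Q63.KZ
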