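import Pool.Agent.Q63.KZ.B

/-!
# Project KZ, jobs DSV and DA
-/

set_option autoImplicit false

namespace Pool.Agent.Q63.KZ

open Finset Filter Topology MeasureTheory
open scoped Classical
open Pool.Agent.W76.MO (hh nc cell lp Rough hh_pos floor_le_i hh_dvd nc_mul)
open Q236.CM (LP LP_one LP_mul LP_prime LP_sqf LP_nonneg LP_le LP_pow LP_mul_fun LP_div)
open Pool.Agent.Q18.KZ

/-- a constant to the number of prime factors is a small power -/
theorem Rg_const (K c : ℝ) (hK : 0 ≤ K) (hc : 0 < c) : ∃ J : ℕ, ∀ j : ℕ, J ≤ j → ∀ n : ℕ, Rg j n →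
    LP (fun _ => K) n ≤ (n : ℝ) ^ c := by
  have hlim : Tendsto (fun j : ℕ => (2 : ℝ) ^ (c * ((j : ℝ) / 10 - 1))) atTop atTop := by
    have h1 : Tendsto (fun x : ℝ => (2 : ℝ) ^ x) atTop atTop :=
      tendsto_rpow_atTop_of_base_gt_one _ (by norm_num)
    have h2 : Tendsto (fun j : ℕ => c * ((j : ℝ) / 10 - 1)) atTop atTop := by
      apply Tendsto.const_mul_atTop hc
      apply tendsto_atTop_add_const_right
      exact tendsto_natCast_atTop_atTop.atTop_div_const (by norm_num)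
    exact h1.comp h2
  obtain ⟨J, hJ⟩ := eventually_atTop.1 (hlim.eventually_ge_atTop K)
  refine ⟨J, fun j hj n hn => ?_⟩
  rw [← LP_pow c hn.1]
  apply LP_le _ _ (fun _ => hK) hn.1
  intro p hp hd
  refine (hJ j hj).trans ?_
  have h1 := hn.2 p hp hd
  have h2 : (2 : ℝ) ^ ((j : ℝ) / 10 - 1) ≤ p := by
    have h3 : (2 : ℝ) ^ ((j : ℝ) / 10 - 1) ≤ (2 : ℝ) ^ (((j / 10 : ℕ) : ℝ)) := by
      apply Real.rpow_le_rpow_of_exponent_le (by norm_num)
      have h4 : j ≤ 10 * (j / 10) + 9 := by omega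
      have h5 : (j : ℝ) ≤ 10 * ((j / 10 : ℕ) : ℝ) + 9 := by exact_mod_cast h4
      linarith
    rw [Real.rpow_natCast] at h3
    exact h3.trans (by exact_mod_cast h1)
  rw [mul_comm, Real.rpow_mul (by norm_num)]
  exact Real.rpow_le_rpow (by positivity) h2 hc.le

/-- the square root scale -/
theorem LP_aV {V : ℕ → Bool} {n : ℕ} (hn : n ≠ 0) (K : ℝ) :
    LP (fun p => K * aV V p) n = if Vn V n then LP (fun _ => K) n * (n : ℝ) ^ (-(1 / 2 : ℝ) - dd) else 0 := by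
  split_ifs with h
  · rw [← LP_pow _ hn, ← LP_mul_fun]
    apply LP_congr hn
    intro p hp hd
    have h1 : V p = true := h p (Nat.mem_primeFactors.2 ⟨hp, hd, hn⟩)
    unfold aV
    rw [if_pos h1]
  · unfold Vn at h
    push Not at h
    obtain ⟨p, hp, hV⟩ := h
    have hp' := Nat.mem_primeFactors.1 hp
    apply LP_zero hn hp'.1 hp'.2.1
    unfold aV
    rw [if_neg hV, mul_zero]

theorem two_pow_j_le {j : ℕ} : ((2 ^ (j / 10) : ℕ) : ℝ) ≤ (2 : ℝ) ^ ((j : ℝ) / 4) := by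
  push_cast
  rw [← Real.rpow_natCast]
  apply Real.rpow_le_rpow_of_exponent_le (by norm_num)
  have h1 : 10 * (j / 10) ≤ j := by omega
  have h2 : 10 * ((j / 10 : ℕ) : ℝ) ≤ (j : ℝ) := by exact_mod_cast h1
  have h3 : (0 : ℝ) ≤ j := Nat.cast_nonneg j
  linarith

theorem t_DSV (hLPA : S_LPA) (hDG : S_DG) : S_DSV := by
  intro E
  obtain ⟨η₀, J₀, hη₀, hG⟩ := hDG E
  obtain ⟨J₁, hR⟩ := Rg_const 4 (1 / 10 ^ 15) (by norm_num) (by positivity)
  refine ⟨η₀, max (max J₀ J₁) 4, hη₀, ?_⟩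
  intro η j V hη hηle hj hEv I n hjI hn hnI
  have hjJ₀ : J₀ ≤ j := le_trans (le_trans (le_max_left _ _) (le_max_left _ _)) hj
  have hjJ₁ : J₁ ≤ j := le_trans (le_trans (le_max_right _ _) (le_max_left _ _)) hj
  have hj4 : 4 ≤ j := le_trans (le_max_right _ _) hj
  have hG' := hG η j V hη hηle hjJ₀ hEv
  have hI2 : 2 ≤ I := by omega
  split_ifs with hRg
  · have hn0 : (0 : ℝ) < n := by exact_mod_cast Nat.pos_of_ne_zero hn
    have hn1 : (1 : ℝ) ≤ n := by exact_mod_cast Nat.pos_of_ne_zero hn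
    have h1 := hLPA (aV V) (fun p => 2 * (E.gu j p + E.gh V j p)) (aV_nonneg V)
      (fun p => by have := gu_nonneg E j p; have := gh_nonneg E V j p; positivity) n hn
    have h2 : E.AA V j n ≤ ∑ l ∈ n.divisors, (if Vn V l then
        (n : ℝ) ^ (2 / 10 ^ 15 : ℝ) * ((l : ℝ) ^ (-(1 / 2 : ℝ) - dd) * (((n / l : ℕ) : ℝ))⁻¹) else 0) := by
      refine h1.trans (sum_le_sum fun l hl => ?_)
      have hln := Nat.dvd_of_mem_divisors hl
      obtain ⟨r, rfl⟩ := hln
      have hl0 : l ≠ 0 := by rintro rfl; simp at hn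
      have hr0 : r ≠ 0 := by rintro rfl; simp at hn
      rw [Nat.mul_div_cancel_left r (Nat.pos_of_ne_zero hl0)]
      rw [LP_aV hl0]
      split_ifs with hV
      · have hr1 : (1 : ℝ) ≤ r := by exact_mod_cast Nat.pos_of_ne_zero hr0
        have h3 : LP (fun p => 2 * (2 * (E.gu j p + E.gh V j p))) r ≤
            LP (fun _ => 4) r * (r : ℝ) ^ (-1 + 1 / 10 ^ 15 : ℝ) := by
          rw [← LP_pow _ hr0, ← LP_mul_fun]
          apply LP_le _ _ _ hr0
          · intro p hp _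
            have := (hG' p hp).2.2.2.1
            show 2 * (2 * (E.gu j p + E.gh V j p)) ≤ 4 * (p : ℝ) ^ (-1 + 1 / 10 ^ 15 : ℝ)
            linarith
          · intro p
            have := gu_nonneg E j p
            have := gh_nonneg E V j p
            positivity
        have h4 : LP (fun _ => (2 : ℝ)) l ≤ LP (fun _ => 4) l :=
          LP_le _ _ (fun _ => by norm_num) hl0 (fun _ _ _ => by norm_num)
        have h5 : LP (fun _ => (4 : ℝ)) l * LP (fun _ => 4) r ≤ ((l * r : ℕ) : ℝ) ^ (1 / 10 ^ 15 : ℝ) := by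
          rw [← LP_mul _ hl0 hr0]
          exact hR j hjJ₁ _ hRg
        have h6 : (r : ℝ) ^ (-1 + 1 / 10 ^ 15 : ℝ) ≤ (r : ℝ)⁻¹ * ((l * r : ℕ) : ℝ) ^ (1 / 10 ^ 15 : ℝ) := by
          rw [Real.rpow_add (by linarith), Real.rpow_neg_one]
          apply mul_le_mul_of_nonneg_left _ (by positivity)
          apply Real.rpow_le_rpow (by positivity) _ (by positivity)
          exact_mod_cast Nat.le_mul_of_pos_left r (Nat.pos_of_ne_zero hl0)
        have h7 : 0 ≤ LP (fun _ => (2 : ℝ)) l := LP_nonneg _ (fun _ => by norm_num) _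
        have h8 : 0 ≤ LP (fun _ => (4 : ℝ)) r := LP_nonneg _ (fun _ => by norm_num) _
        have h8' : 0 ≤ LP (fun _ => (4 : ℝ)) l := LP_nonneg _ (fun _ => by norm_num) _
        have h9 : (0 : ℝ) ≤ (l : ℝ) ^ (-(1 / 2 : ℝ) - dd) := by positivity
        have h10 : ((l * r : ℕ) : ℝ) ^ (2 / 10 ^ 15 : ℝ) =
            ((l * r : ℕ) : ℝ) ^ (1 / 10 ^ 15 : ℝ) * ((l * r : ℕ) : ℝ) ^ (1 / 10 ^ 15 : ℝ) := by
          rw [← Real.rpow_add hn0]
          congr 1
          norm_num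
        rw [h10]
        calc LP (fun _ => (2 : ℝ)) l * (l : ℝ) ^ (-(1 / 2 : ℝ) - dd) *
              LP (fun p => 2 * (2 * (E.gu j p + E.gh V j p))) r
            ≤ LP (fun _ => (4 : ℝ)) l * (l : ℝ) ^ (-(1 / 2 : ℝ) - dd) *
              (LP (fun _ => 4) r * ((r : ℝ)⁻¹ * ((l * r : ℕ) : ℝ) ^ (1 / 10 ^ 15 : ℝ))) := by
              apply mul_le_mul (mul_le_mul_of_nonneg_right h4 h9)
                (h3.trans (mul_le_mul_of_nonneg_left h6 h8))
              · apply LP_nonneg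
                intro p
                have := gu_nonneg E j p
                have := gh_nonneg E V j p
                positivity
              · positivity
          _ = (LP (fun _ => (4 : ℝ)) l * LP (fun _ => 4) r) *
              (((l * r : ℕ) : ℝ) ^ (1 / 10 ^ 15 : ℝ) * ((l : ℝ) ^ (-(1 / 2 : ℝ) - dd) * (r : ℝ)⁻¹)) := by
              ring
          _ ≤ ((l * r : ℕ) : ℝ) ^ (1 / 10 ^ 15 : ℝ) *
              (((l * r : ℕ) : ℝ) ^ (1 / 10 ^ 15 : ℝ) * ((l : ℝ) ^ (-(1 / 2 : ℝ) - dd) * (r : ℝ)⁻¹)) :=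
              mul_le_mul_of_nonneg_right h5 (by positivity)
          _ = _ := by ring
      · rw [zero_mul]
    have h3 : ∑ l ∈ n.divisors, (if Vn V l then
        (n : ℝ) ^ (2 / 10 ^ 15 : ℝ) * ((l : ℝ) ^ (-(1 / 2 : ℝ) - dd) * (((n / l : ℕ) : ℝ))⁻¹) else 0) =
        (n : ℝ) ^ (2 / 10 ^ 15 : ℝ) * SV V n := by
      unfold SV
      rw [← sum_filter, mul_sum]
    rw [h3] at h2
    refine h2.trans (mul_le_mul_of_nonneg_right ?_ (SV_nonneg V n))
    have h4 : (n : ℝ) ≤ (2 : ℝ) ^ ((I : ℝ) + 2) := by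
      have h5 : (2 : ℝ) ^ ((I : ℝ) + 2) = ((2 ^ (I + 2) : ℕ) : ℝ) := by
        push_cast
        rw [← Real.rpow_natCast]
        push_cast
        rfl
      rw [h5]
      exact_mod_cast hnI
    calc (n : ℝ) ^ (2 / 10 ^ 15 : ℝ) ≤ ((2 : ℝ) ^ ((I : ℝ) + 2)) ^ (2 / 10 ^ 15 : ℝ) :=
          Real.rpow_le_rpow (by positivity) h4 (by positivity)
      _ = (2 : ℝ) ^ (((I : ℝ) + 2) * (2 / 10 ^ 15 : ℝ)) := by rw [← Real.rpow_mul (by norm_num)]
      _ ≤ (2 : ℝ) ^ ((I : ℝ) / 10 ^ 14) := by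
          apply Real.rpow_le_rpow_of_exponent_le (by norm_num)
          have h6 : (2 : ℝ) ≤ I := by exact_mod_cast hI2
          have h7 : ((I : ℝ) + 2) * (2 / 10 ^ 15 : ℝ) ≤ (2 * I) * (2 / 10 ^ 15 : ℝ) :=
            mul_le_mul_of_nonneg_right (by linarith) (by positivity)
          refine h7.trans ?_
          have h8 : (2 * (I : ℝ)) * (2 / 10 ^ 15 : ℝ) = (I : ℝ) * (4 / 10 ^ 15) := by ring
          have h9 : (I : ℝ) / 10 ^ 14 = (I : ℝ) * (1 / 10 ^ 14) := by ring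
          rw [h8, h9]
          apply mul_le_mul_of_nonneg_left _ (by positivity)
          norm_num
  · unfold Rg at hRg
    push Not at hRg
    obtain ⟨p, hp, hd, hlt⟩ := hRg hn
    apply le_of_eq
    unfold KEnv.AA
    apply LP_zero hn hp hd
    have h1 : aV V p = 0 := by
      unfold aV
      rw [if_neg]
      intro hV
      have := (hEv.sub p hV).2
      omega
    have h2 : E.gu j p = 0 := by
      unfold KEnv.gu
      rw [if_neg]
      rintro ⟨_, h5, _⟩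
      have h6 : 2 ^ (j / 10) ≤ 2 ^ j := Nat.pow_le_pow_right (by norm_num) (Nat.div_le_self _ _)
      omega
    have h3 : E.gh V j p = 0 := by
      apply (hG' p hp).2.2.2.2.2
      refine lt_of_lt_of_le ?_ (two_pow_j_le (j := j))
      exact_mod_cast hlt
    rw [h1, h2, h3]
    ring

/-- the majorant at a multiplier, general form -/
theorem AA_mult {E : KEnv} {j : ℕ} {V : ℕ → Bool}
    (hG : ∀ p : ℕ, p.Prime → E.gu j p + E.gh V j p ≤ (p : ℝ) ^ (-1 + 1 / 10 ^ 15 : ℝ))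
    {i m : ℕ} (hi : 100 ≤ i) (hs : Squarefree m) (hc : m.primeFactors.card ≤ 3)
    (hp : ∀ p : ℕ, p.Prime → p ∣ m → (2 : ℝ) ^ (0.24 * (i : ℝ)) ≤ p) (hV : Vn V m) :
    E.AA V j m ≤ (1 + (2 : ℝ) ^ (-((i : ℝ) / 100))) * (m : ℝ) ^ (-(1 / 2 : ℝ) - dd) := by
  have hm := hs.ne_zero
  set κ : ℝ := 2 * (2 : ℝ) ^ (-(0.11 * (i : ℝ))) with hκ
  have hκ0 : 0 < κ := by positivity
  have hi' : (100 : ℝ) ≤ i := by exact_mod_cast hi
  have h1 : E.AA V j m ≤ LP (fun p => (1 + κ) * (p : ℝ) ^ (-(1 / 2 : ℝ) - dd)) m := by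
    unfold KEnv.AA
    apply LP_le _ _ _ hm
    · intro p hpp hd
      have hVp : V p = true := hV p (Nat.mem_primeFactors.2 ⟨hpp, hd, hm⟩)
      have h2 := hG p hpp
      have h3 := hp p hpp hd
      have hp0 : (0 : ℝ) < p := by exact_mod_cast hpp.pos
      have hp1 : (1 : ℝ) ≤ p := by exact_mod_cast hpp.one_lt.le
      have h4 : (p : ℝ) ^ (-1 + 1 / 10 ^ 15 : ℝ) ≤
          (2 : ℝ) ^ (-(0.11 * (i : ℝ))) * (p : ℝ) ^ (-(1 / 2 : ℝ) - dd) := by
        have h5 : (p : ℝ) ^ (-1 + 1 / 10 ^ 15 : ℝ) ≤ (p : ℝ) ^ (-(0.49 : ℝ) + (-(1 / 2 : ℝ) - dd)) := by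
          apply Real.rpow_le_rpow_of_exponent_le hp1
          unfold dd
          norm_num
        refine h5.trans ?_
        rw [Real.rpow_add hp0]
        apply mul_le_mul_of_nonneg_right _ (by positivity)
        calc (p : ℝ) ^ (-(0.49 : ℝ)) ≤ ((2 : ℝ) ^ (0.24 * (i : ℝ))) ^ (-(0.49 : ℝ)) :=
              Real.rpow_le_rpow_of_nonpos (by positivity) h3 (by norm_num)
          _ = (2 : ℝ) ^ (0.24 * (i : ℝ) * (-(0.49 : ℝ))) := by rw [← Real.rpow_mul (by norm_num)]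
          _ ≤ (2 : ℝ) ^ (-(0.11 * (i : ℝ))) := by
              apply Real.rpow_le_rpow_of_exponent_le (by norm_num)
              nlinarith
      have h5 : aV V p = (p : ℝ) ^ (-(1 / 2 : ℝ) - dd) := by
        unfold aV
        rw [if_pos hVp]
      rw [h5]
      simp only [hκ]
      nlinarith
    · intro p
      have h1 := aV_nonneg V p
      have h2 := gu_nonneg E j p
      have h3 := gh_nonneg E V j p
      positivity
  refine h1.trans ?_
  rw [LP_mul_fun, LP_pow _ hm]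
  apply mul_le_mul_of_nonneg_right _ (by positivity)
  rw [LP_sqf _ hs, prod_const]
  have h2 : (1 + κ) ^ m.primeFactors.card ≤ (1 + κ) ^ 3 :=
    pow_le_pow_right₀ (by linarith) hc
  refine h2.trans ?_
  have hκ1 : κ ≤ 1 := by
    have h3 : (2 : ℝ) ^ (-(0.11 * (i : ℝ))) ≤ (2 : ℝ) ^ (-1 : ℝ) := by
      apply Real.rpow_le_rpow_of_exponent_le (by norm_num)
      nlinarith
    rw [Real.rpow_neg_one] at h3
    simp only [hκ]
    linarith
  have h3 : (1 + κ) ^ 3 ≤ 1 + 7 * κ := by nlinarith [mul_nonneg hκ0.le hκ0.le, mul_nonneg hκ0.le (sub_nonneg.2 hκ1)]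
  refine h3.trans ?_
  have h4 : 7 * κ ≤ (2 : ℝ) ^ (-((i : ℝ) / 100)) := by
    have h5 : (2 : ℝ) ^ (-(0.11 * (i : ℝ))) = (2 : ℝ) ^ (-(0.10 * (i : ℝ))) * (2 : ℝ) ^ (-((i : ℝ) / 100)) := by
      rw [← Real.rpow_add (by norm_num)]
      congr 1
      ring
    have h6 : (2 : ℝ) ^ (-(0.10 * (i : ℝ))) ≤ (2 : ℝ) ^ (-4 : ℝ) := by
      apply Real.rpow_le_rpow_of_exponent_le (by norm_num)
      nlinarith
    have h7 : (2 : ℝ) ^ (-4 : ℝ) = 1 / 16 := by
      rw [Real.rpow_neg (by norm_num)]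
      norm_num
    rw [h7] at h6
    have h8 : 0 < (2 : ℝ) ^ (-((i : ℝ) / 100)) := by positivity
    simp only [hκ]
    rw [h5]
    nlinarith
  linarith

theorem t_DA (hDG : S_DG) (hFF : S_FF) : S_DA := by
  intro E
  obtain ⟨η₀, J₀, hη₀, hG⟩ := hDG E
  refine ⟨η₀, max (max J₀ E.i₁) 100, hη₀, ?_⟩
  intro η j V hη hηle hj hEv i hi u hu hV
  have hjJ₀ : J₀ ≤ j := le_trans (le_trans (le_max_left _ _) (le_max_left _ _)) hj
  have hji : E.i₁ ≤ j := le_trans (le_trans (le_max_right _ _) (le_max_left _ _)) hj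
  have hj100 : 100 ≤ j := le_trans (le_max_right _ _) hj
  have hG' := hG η j V hη hηle hjJ₀ hEv
  obtain ⟨hF1, hF2⟩ := hFF E i (hji.trans hi)
  have hi100 : 100 ≤ i := hj100.trans hi
  rcases mem_union.1 hu with h | h
  · obtain ⟨hp1, _, hVR, _⟩ := hF1 u h
    apply AA_mult (fun p hp => (hG' p hp).2.2.2.1) hi100 hp1.prime.squarefree _ _ hV
    · rw [hp1.primeFactors, card_singleton]
      norm_num
    · intro p hp hd
      have h1 : p = u.1 := (Nat.prime_dvd_prime_iff_eq hp hp1).1 hd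
      rw [h1]
      unfold VR at hVR
      rw [mem_filter] at hVR
      refine le_trans ?_ hVR.2.2.1.le
      apply Real.rpow_le_rpow_of_exponent_le (by norm_num)
      have : (0 : ℝ) ≤ i := Nat.cast_nonneg i
      nlinarith
  · obtain ⟨hs, _, _, _, hp, hc, _⟩ := hF2 u h
    exact AA_mult (fun p hp => (hG' p hp).2.2.2.1) hi100 hs hc hp hV

end Pool.Agent.Q63.KZ
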