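import Pool.Agent.Q63.KZ.B

/-!
# Project KZ, job DU: the control primes
-/

set_option autoImplicit false

namespace Pool.Agent.Q63.KZ

open Finset Filter Topology MeasureTheory
open scoped Classical
open Pool.Agent.W76.MO (hh nc cell lp Rough hh_pos floor_le_i hh_dvd nc_mul)
open Q236.CM (LP LP_one LP_mul LP_prime LP_sqf LP_nonneg LP_le LP_pow LP_mul_fun LP_div)
open Pool.Agent.Q18.KZ

theorem tele (j : ℕ) (hj : 1 ≤ j) (M : ℕ) (hM : j ≤ M) :
    ∑ s ∈ Ico j M, 1 / ((s : ℝ) * ((s : ℝ) + 1)) = 1 / (j : ℝ) - 1 / (M : ℝ) := by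
  induction M, hM using Nat.le_induction with
  | base => simp
  | succ M hM ih =>
    rw [Finset.sum_Ico_succ_top hM, ih]
    have h1 : (0 : ℝ) < M := by exact_mod_cast (by omega : 0 < M)
    push_cast
    field_simp
    ring

theorem tele_le (j : ℕ) (hj : 1 ≤ j) (M : ℕ) :
    ∑ s ∈ Ico j M, 1 / ((s : ℝ) * ((s : ℝ) + 1)) ≤ 1 / (j : ℝ) := by
  rcases le_total j M with h | h
  · rw [tele j hj M h]
    have : (0 : ℝ) ≤ 1 / (M : ℝ) := by positivity
    linarith
  · rw [Finset.Ico_eq_empty_of_le h, Finset.sum_empty]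
    positivity

theorem t_DU : S_DU := by
  intro E
  refine ⟨2, fun j hj N => ?_⟩
  have hδ := E.hδ
  set f : ℕ → ℝ := fun p => E.gu j p * (p : ℝ) ^ (-(E.δ / 2)) with hf
  set A : Finset ℕ := ((range N).filter Nat.Prime).filter (fun p => E.gu j p ≠ 0) with hA
  have hfnn : ∀ p, 0 ≤ f p := fun p => mul_nonneg (gu_nonneg E j p) (by positivity)
  have h1 : ∑ p ∈ (range N).filter Nat.Prime, f p = ∑ p ∈ A, f p := by
    symm
    apply sum_filter_of_ne
    intro p _ h h0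
    apply h
    simp only [hf, h0, zero_mul]
  have hAp : ∀ p ∈ A, p.Prime ∧ 2 ^ j < p ∧ p < N ∧ E.gu j p =
      ww E.δ (KEnv.sc p) / (((cell E.δ (KEnv.sc p) (E.kx p)).filter Nat.Prime).card : ℝ) := by
    intro p hp
    rw [hA, mem_filter, mem_filter, mem_range] at hp
    obtain ⟨⟨hpN, hpp⟩, h0⟩ := hp
    have h2 : p.Prime ∧ 2 ^ j < p ∧ E.kx p ∉ E.B1 (KEnv.sc p) ∪ E.B2 (KEnv.sc p) := by
      by_contra hcon
      apply h0
      unfold KEnv.gu
      rw [if_neg hcon]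
    refine ⟨hpp, h2.2.1, hpN, ?_⟩
    unfold KEnv.gu
    rw [if_pos h2]
  have hmaps : ∀ p ∈ A, KEnv.sc p ∈ Ico j N := by
    intro p hp
    obtain ⟨hpp, h2, h3, _⟩ := hAp p hp
    rw [mem_Ico]
    have h2j : 0 < 2 ^ j := by positivity
    constructor
    · unfold KEnv.sc
      exact Nat.le_log_of_pow_le (by norm_num) (by omega)
    · unfold KEnv.sc
      have := Nat.log_le_self 2 (p - 1)
      omega
  rw [h1, ← sum_fiberwise_of_maps_to hmaps]
  refine le_trans (sum_le_sum (g := fun s : ℕ => 1 / ((s : ℝ) * ((s : ℝ) + 1))) fun s hs => ?_)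
    (tele_le j (by omega) N)
  rw [mem_Ico] at hs
  have hs2 : 2 ≤ s := by omega
  have hmaps2 : ∀ p ∈ A.filter (fun p => KEnv.sc p = s), E.kx p ∈ range (nc E.δ s) := by
    intro p hp
    rw [mem_filter] at hp
    obtain ⟨hpp, h2, h3, _⟩ := hAp p hp.1
    have h4 := (mem_cell E hpp.two_le).1
    rw [hp.2] at h4
    exact mem_range.2 h4
  rw [← sum_fiberwise_of_maps_to hmaps2]
  have hinner : ∀ k ∈ range (nc E.δ s),
      ∑ p ∈ (A.filter (fun p => KEnv.sc p = s)).filter (fun p => E.kx p = k), f p ≤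
        ww E.δ s * (2 : ℝ) ^ (-(E.δ / 2) * (s : ℝ)) := by
    intro k _
    set P := (cell E.δ s k).filter Nat.Prime with hP
    have hsub : (A.filter (fun p => KEnv.sc p = s)).filter (fun p => E.kx p = k) ⊆ P := by
      intro p hp
      rw [mem_filter, mem_filter] at hp
      obtain ⟨hpp, _⟩ := hAp p hp.1.1
      have h4 := (mem_cell E hpp.two_le).2.1
      rw [hp.1.2, hp.2] at h4
      rw [hP, mem_filter]
      exact ⟨h4, hpp⟩
    have hval : ∀ p ∈ (A.filter (fun p => KEnv.sc p = s)).filter (fun p => E.kx p = k),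
        f p ≤ ww E.δ s / (P.card : ℝ) * (2 : ℝ) ^ (-(E.δ / 2) * (s : ℝ)) := by
      intro p hp
      rw [mem_filter, mem_filter] at hp
      obtain ⟨hpp, h2, h3, h4⟩ := hAp p hp.1.1
      rw [hp.1.2, hp.2] at h4
      show E.gu j p * (p : ℝ) ^ (-(E.δ / 2)) ≤ _
      rw [h4]
      have hw := ww_nonneg E.δ s
      apply mul_le_mul_of_nonneg_left _ (by positivity)
      have h5 := (mem_cell E hpp.two_le).2.2.1
      rw [hp.1.2] at h5
      have h6 : (2 : ℝ) ^ (s : ℝ) ≤ p := by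
        rw [Real.rpow_natCast]
        exact_mod_cast h5.le
      calc (p : ℝ) ^ (-(E.δ / 2)) ≤ ((2 : ℝ) ^ (s : ℝ)) ^ (-(E.δ / 2)) :=
            Real.rpow_le_rpow_of_nonpos (by positivity) h6 (by linarith)
        _ = (2 : ℝ) ^ (-(E.δ / 2) * (s : ℝ)) := by
            rw [← Real.rpow_mul (by norm_num)]
            congr 1
            ring
    refine (sum_le_card_nsmul _ _ _ hval).trans ?_
    rw [nsmul_eq_mul]
    have hcard : ((((A.filter (fun p => KEnv.sc p = s)).filter (fun p => E.kx p = k)).card : ℕ) : ℝ) ≤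
        P.card := by exact_mod_cast card_le_card hsub
    have hw := ww_nonneg E.δ s
    calc ((((A.filter (fun p => KEnv.sc p = s)).filter (fun p => E.kx p = k)).card : ℕ) : ℝ) *
          (ww E.δ s / (P.card : ℝ) * (2 : ℝ) ^ (-(E.δ / 2) * (s : ℝ)))
        ≤ (P.card : ℝ) * (ww E.δ s / (P.card : ℝ) * (2 : ℝ) ^ (-(E.δ / 2) * (s : ℝ))) :=
          mul_le_mul_of_nonneg_right hcard (by positivity)
      _ = ((P.card : ℝ) * (ww E.δ s / (P.card : ℝ))) * (2 : ℝ) ^ (-(E.δ / 2) * (s : ℝ)) := by ring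
      _ ≤ ww E.δ s * (2 : ℝ) ^ (-(E.δ / 2) * (s : ℝ)) := by
          apply mul_le_mul_of_nonneg_right _ (by positivity)
          rcases Nat.eq_zero_or_pos P.card with h0 | h0
          · rw [h0]
            simp [hw]
          · have h0' : (P.card : ℝ) ≠ 0 := by exact_mod_cast h0.ne'
            rw [mul_div_cancel₀ _ h0']
  refine (sum_le_card_nsmul _ _ _ hinner).trans ?_
  rw [nsmul_eq_mul, card_range]
  have hw := ww_nonneg E.δ s
  have hspos : (0 : ℝ) < s := by exact_mod_cast (by omega : 0 < s)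
  have hs2' : (2 : ℝ) ≤ s := by exact_mod_cast hs2
  calc (nc E.δ s : ℝ) * (ww E.δ s * (2 : ℝ) ^ (-(E.δ / 2) * (s : ℝ)))
      ≤ (2 * (2 : ℝ) ^ ((1 / 2 + E.δ) * (s : ℝ))) * (ww E.δ s * (2 : ℝ) ^ (-(E.δ / 2) * (s : ℝ))) :=
        mul_le_mul_of_nonneg_right (nc_le E.δ hδ s) (by positivity)
    _ = 2 / (s : ℝ) ^ 40 * ((2 : ℝ) ^ ((1 / 2 + E.δ) * (s : ℝ)) * ((2 : ℝ) ^ (-(1 / 2 + E.δ / 2) * (s : ℝ)) *
          (2 : ℝ) ^ (-(E.δ / 2) * (s : ℝ)))) := by
        unfold ww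
        ring
    _ = 2 / (s : ℝ) ^ 40 := by
        rw [← Real.rpow_add (by norm_num), ← Real.rpow_add (by norm_num)]
        have : (1 / 2 + E.δ) * (s : ℝ) + (-(1 / 2 + E.δ / 2) * (s : ℝ) + -(E.δ / 2) * (s : ℝ)) = 0 := by ring
        rw [this, Real.rpow_zero, mul_one]
    _ ≤ 1 / ((s : ℝ) * ((s : ℝ) + 1)) := by
        rw [div_le_div_iff₀ (by positivity) (by positivity)]
        have h1 : (s : ℝ) ^ 40 = (s : ℝ) * (s : ℝ) * (s : ℝ) ^ 38 := by ring
        have h2 : (2 : ℝ) ^ 38 ≤ (s : ℝ) ^ 38 := pow_le_pow_left₀ (by norm_num) hs2' 38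
        have h3 : (4 : ℝ) ≤ (s : ℝ) ^ 38 := by
          refine le_trans ?_ h2
          norm_num
        rw [h1]
        have h4 : (s : ℝ) + 1 ≤ 2 * s := by linarith
        nlinarith [mul_nonneg hspos.le hspos.le]

end Pool.Agent.Q63.KZ
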