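import Pool.Agent.Q63.KZ.B

/-!
# Project KZ, job HP: host primes
-/

set_option autoImplicit false

namespace Pool.Agent.Q63.KZ

open Finset Filter Topology MeasureTheory
open scoped Classical
open Pool.Agent.W76.MO (hh nc cell lp Rough hh_pos floor_le_i hh_dvd nc_mul)
open Q236.CM (LP LP_one LP_mul LP_prime LP_sqf LP_nonneg LP_le LP_pow LP_mul_fun LP_div)
open Pool.Agent.Q18.KZ

/-- the term of the pair `u` -/
noncomputable def tm (E : KEnv) (V : ℕ → Bool) (j : ℕ) (g : ℕ × ℕ → ℝ) (n : ℕ) (u : ℕ × ℕ) : ℝ :=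
  (n.factorization u.2 : ℝ) * (g u * E.AA V j (n / u.2))

theorem tm_nonneg (E : KEnv) (V : ℕ → Bool) (j : ℕ) {g : ℕ × ℕ → ℝ} (hg : ∀ u, 0 ≤ g u) (n : ℕ) (u : ℕ × ℕ) :
    0 ≤ tm E V j g n u :=
  mul_nonneg (Nat.cast_nonneg _) (mul_nonneg (hg u) (AA_nonneg E V j _))

theorem fiber (E : KEnv) (V : ℕ → Bool) (j : ℕ) (F : Finset (ℕ × ℕ)) (g : ℕ × ℕ → ℝ) (B : ℝ) {n : ℕ} (hn : n ≠ 0)
    (hF : ∀ u ∈ F, u.2.Prime) :
    ∑ q ∈ n.primeFactors.filter (fun q : ℕ => B ≤ q), (n.factorization q : ℝ) *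
      ((∑ u ∈ F.filter (fun u => u.2 = q), g u) * E.AA V j (n / q)) =
    ∑ u ∈ F.filter (fun u => u.2 ∣ n ∧ B ≤ u.2), tm E V j g n u := by
  have hmaps : ∀ u ∈ F.filter (fun u => u.2 ∣ n ∧ B ≤ u.2), u.2 ∈ n.primeFactors.filter (fun q : ℕ => B ≤ q) := by
    intro u hu
    rw [mem_filter] at hu ⊢
    exact ⟨Nat.mem_primeFactors.2 ⟨hF u hu.1, hu.2.1, hn⟩, hu.2.2⟩
  rw [← sum_fiberwise_of_maps_to hmaps]
  refine sum_congr rfl fun q hq => ?_
  rw [mem_filter] at hq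
  have hqd := (Nat.mem_primeFactors.1 hq.1).2.1
  have hset : (F.filter (fun u => u.2 ∣ n ∧ B ≤ u.2)).filter (fun u => u.2 = q) = F.filter (fun u => u.2 = q) := by
    ext u
    simp only [mem_filter]
    constructor
    · rintro ⟨⟨h1, _⟩, h2⟩
      exact ⟨h1, h2⟩
    · rintro ⟨h1, h2⟩
      refine ⟨⟨h1, ?_, ?_⟩, h2⟩
      · rw [h2]; exact hqd
      · rw [h2]; exact hq.2
  rw [hset, sum_mul, mul_sum]
  refine sum_congr rfl fun u hu => ?_
  rw [mem_filter] at hu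
  unfold tm
  rw [hu.2]

theorem split3 (E : KEnv) (V : ℕ → Bool) (j : ℕ) (F : Finset (ℕ × ℕ)) {g : ℕ × ℕ → ℝ} (B X : ℝ) {n : ℕ}
    (hg : ∀ u, 0 ≤ g u) :
    ∑ u ∈ F.filter (fun u => u.2 ∣ n ∧ B ≤ u.2), tm E V j g n u ≤
      ∑ u ∈ F.filter (fun u => u.2 ∣ n ∧ B ≤ u.2 ∧ (¬ u.1 ∣ n / u.2 ∨ X ≤ ((n / u.2 / u.1 : ℕ) : ℝ))), tm E V j g n u +
      ∑ u ∈ F.filter (fun u => u.1 * u.2 ∣ n ∧ u.1 * u.2 ≠ n ∧ ((n / u.2 / u.1 : ℕ) : ℝ) < X), tm E V j g n u +
      ∑ u ∈ F.filter (fun u => u.1 * u.2 = n), tm E V j g n u := by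
  rw [sum_filter, sum_filter, sum_filter, sum_filter, ← sum_add_distrib, ← sum_add_distrib]
  refine sum_le_sum fun u _ => ?_
  have h0 := tm_nonneg E V j hg n u
  by_cases h1 : u.2 ∣ n ∧ B ≤ u.2
  · by_cases h2 : ¬ u.1 ∣ n / u.2 ∨ X ≤ ((n / u.2 / u.1 : ℕ) : ℝ)
    · rw [if_pos h1, if_pos ⟨h1.1, h1.2, h2⟩]
      split_ifs <;> linarith
    · push Not at h2
      obtain ⟨h3, h4⟩ := h2
      have h5 : u.1 * u.2 ∣ n := by
        obtain ⟨m, hm⟩ := h3
        refine ⟨m, ?_⟩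
        have h6 := Nat.mul_div_cancel' h1.1
        rw [hm] at h6
        rw [← h6]
        ring
      by_cases h6 : u.1 * u.2 = n
      · rw [if_pos h1, if_pos h6]
        split_ifs <;> linarith
      · have h7 : u.1 * u.2 ∣ n ∧ u.1 * u.2 ≠ n ∧ ((n / u.2 / u.1 : ℕ) : ℝ) < X := ⟨h5, h6, h4⟩
        rw [if_pos h1, if_pos h7]
        split_ifs <;> linarith
  · rw [if_neg h1]
    split_ifs <;> linarith

/-- the pairs whose product lies in the cell -/
theorem exact_part (E : KEnv) (V : ℕ → Bool) (j : ℕ) (A : Finset ℕ) (F : Finset (ℕ × ℕ)) (g : ℕ × ℕ → ℝ) {c : ℝ}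
    (hF : ∀ u ∈ F, u.2.Prime ∧ u.1 ≠ 0 ∧ ¬ u.2 ∣ u.1) (hg : ∀ u, 0 ≤ g u) (hg' : ∀ u, ¬ Vn V u.1 → g u = 0)
    (hA : ∀ u ∈ F, Vn V u.1 → E.AA V j u.1 ≤ c * (u.1 : ℝ) ^ (-(1 / 2 : ℝ) - dd)) :
    ∑ n ∈ A, ∑ u ∈ F.filter (fun u => u.1 * u.2 = n), tm E V j g n u ≤
      c * ∑ u ∈ F.filter (fun u => u.1 * u.2 ∈ A), g u * (u.1 : ℝ) ^ (-(1 / 2 : ℝ) - dd) := by
  have hmaps : ∀ u ∈ F.filter (fun u => u.1 * u.2 ∈ A), u.1 * u.2 ∈ A := fun u hu => (mem_filter.1 hu).2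
  rw [← sum_fiberwise_of_maps_to hmaps, mul_sum]
  refine sum_le_sum fun n hn => ?_
  have hset : (F.filter (fun u => u.1 * u.2 ∈ A)).filter (fun u => u.1 * u.2 = n) =
      F.filter (fun u => u.1 * u.2 = n) := by
    ext u
    simp only [mem_filter]
    constructor
    · rintro ⟨⟨h1, _⟩, h2⟩
      exact ⟨h1, h2⟩
    · rintro ⟨h1, h2⟩
      refine ⟨⟨h1, ?_⟩, h2⟩
      rw [h2]; exact hn
  rw [hset, mul_sum]
  refine sum_le_sum fun u hu => ?_
  rw [mem_filter] at hu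
  obtain ⟨hp, h0, hnd⟩ := hF u hu.1
  have h1 : n / u.2 = u.1 := by rw [← hu.2, Nat.mul_div_cancel _ hp.pos]
  have h2 : n.factorization u.2 = 1 := by
    rw [← hu.2, Nat.factorization_mul h0 hp.ne_zero, Finsupp.add_apply, hp.factorization_self,
      Nat.factorization_eq_zero_of_not_dvd hnd]
  unfold tm
  rw [h1, h2, Nat.cast_one, one_mul]
  by_cases hV : Vn V u.1
  · calc g u * E.AA V j u.1 ≤ g u * (c * (u.1 : ℝ) ^ (-(1 / 2 : ℝ) - dd)) :=
          mul_le_mul_of_nonneg_left (hA u hu.1 hV) (hg u)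
      _ = _ := by ring
  · rw [hg' u hV]
    simp

theorem exact_zero {i i' n : ℕ} (hne : i' ≠ i) (h1 : 2 ^ i < n) (h2 : n ≤ 2 ^ (i + 1)) (h3 : 2 ^ i' < n)
    (h4 : n ≤ 2 ^ (i' + 1)) : False := by
  rcases lt_or_gt_of_ne hne with h | h
  · have : 2 ^ (i' + 1) ≤ 2 ^ i := Nat.pow_le_pow_right (by norm_num) h
    omega
  · have : 2 ^ (i + 1) ≤ 2 ^ i' := Nat.pow_le_pow_right (by norm_num) h
    omega

theorem t_HP (hDT : S_DT) (hDA : S_DA) (hFF : S_FF) (hHPa : S_HPa) (hHPb : S_HPb) : S_HP := by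
  intro E ε hε
  obtain ⟨C, hC1, hT⟩ := hDT E
  obtain ⟨η₁, J₁, hη₁, hA⟩ := hDA E
  obtain ⟨η₂, J₂, hη₂, ha⟩ := hHPa E (ε / 4) (by linarith)
  obtain ⟨η₃, J₃, hη₃, hb⟩ := hHPb E (ε / 4) (by linarith)
  have hal := al_pos E
  obtain ⟨J₄, hJ₄⟩ : ∃ J : ℕ, ∀ i : ℕ, J ≤ i → (2 : ℝ) ^ (-((i : ℝ) / 100)) ≤ min 1 (ε / (4 * E.al)) := by
    have h1 : Tendsto (fun i : ℕ => (2 : ℝ) ^ (-((i : ℝ) / 100))) atTop (𝓝 0) := by
      have h1 : Tendsto (fun x : ℝ => (2 : ℝ) ^ (-x)) atTop (𝓝 0) := by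
        have h2 : Tendsto (fun x : ℝ => (1 / 2 : ℝ) ^ x) atTop (𝓝 0) :=
          tendsto_rpow_atTop_of_base_lt_one _ (by norm_num) (by norm_num)
        refine h2.congr fun x => ?_
        rw [Real.rpow_neg (by norm_num), ← Real.inv_rpow (by norm_num)]
        norm_num
      have h3 : Tendsto (fun j : ℕ => (j : ℝ) / 100) atTop atTop :=
        tendsto_natCast_atTop_atTop.atTop_div_const (by norm_num)
      exact h1.comp h3
    have h2 : 0 < min 1 (ε / (4 * E.al)) := lt_min one_pos (by positivity)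
    obtain ⟨J, hJ⟩ := eventually_atTop.1 (h1.eventually (gt_mem_nhds h2))
    exact ⟨J, fun i hi => (hJ i hi).le⟩
  refine ⟨min η₁ (min η₂ η₃), max (max J₁ J₂) (max (max J₃ J₄) (max E.i₁ 1)), lt_min hη₁ (lt_min hη₂ hη₃), ?_⟩
  intro η j V hη hηle hj hEv i k hi hk
  have hj1 : J₁ ≤ j := le_trans (le_trans (le_max_left _ _) (le_max_left _ _)) hj
  have hj2 : J₂ ≤ j := le_trans (le_trans (le_max_right _ _) (le_max_left _ _)) hj
  have hj3 : J₃ ≤ j := le_trans (le_trans (le_trans (le_max_left _ _) (le_max_left _ _)) (le_max_right _ _)) hj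
  have hj4 : J₄ ≤ j := le_trans (le_trans (le_trans (le_max_right _ _) (le_max_left _ _)) (le_max_right _ _)) hj
  have hji : E.i₁ ≤ j := le_trans (le_trans (le_trans (le_max_left _ _) (le_max_right _ _)) (le_max_right _ _)) hj
  have hjp : 1 ≤ j := le_trans (le_trans (le_trans (le_max_right _ _) (le_max_right _ _)) (le_max_right _ _)) hj
  have hA' := hA η j V hη (hηle.trans (min_le_left _ _)) hj1 hEv
  have ha' := ha η j V hη (hηle.trans ((min_le_right _ _).trans (min_le_left _ _))) hj2 hEv i k hi hk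
  have hb' := hb η j V hη (hηle.trans ((min_le_right _ _).trans (min_le_right _ _))) hj3 hEv i k hi hk
  have hT' := hT j hji V (fun p hp => (hEv.sub p hp).1) hEv.o1 hEv.o2
  have hκ := hJ₄ i (hj4.trans hi)
  set κ : ℝ := (2 : ℝ) ^ (-((i : ℝ) / 100)) with hκd
  have hκ0 : 0 < κ := by positivity
  have hκ1 : κ ≤ 1 := hκ.trans (min_le_left _ _)
  have hκ2 : κ * E.al ≤ ε / 4 := by
    have h1 := hκ.trans (min_le_right _ _)
    rw [le_div_iff₀ (by positivity)] at h1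
    linarith
  have hw := ww_nonneg E.δ i
  set R := (range (4 * i + 9)).filter (fun i' => j ≤ i') with hR
  set B : ℝ := (2 : ℝ) ^ ((i : ℝ) / 10 ^ 6) with hB
  have hcl : ∀ n ∈ cell E.δ i k, 2 ^ i < n ∧ n ≤ 2 ^ (i + 1) := fun n hn => by
    have := cell_loc E.δ E.hδ hk hn
    exact ⟨this.1, this.2.1⟩
  -- the families
  have hFam : ∀ i' ∈ R, (∀ u ∈ E.Fam1 i', u.2.Prime) ∧ (∀ u ∈ E.Fam2 i', u.2.Prime) := by
    intro i' hi'
    rw [hR, mem_filter] at hi'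
    obtain ⟨hF1, hF2⟩ := hFF E i' (hji.trans hi'.2)
    exact ⟨fun u hu => (hF1 u hu).2.1, fun u hu => (hF2 u hu).2.2.1⟩
  -- step 1: insert the definition of `ghn`
  have hstep1 : ∀ n ∈ cell E.δ i k, ∑ q ∈ n.primeFactors.filter (fun q : ℕ => B ≤ q),
      (n.factorization q : ℝ) * (E.ghn V j i q * E.AA V j (n / q)) ≤
      ∑ i' ∈ R, ((if (i' : ℝ) ≤ 1.166 * i then
        ∑ u ∈ (E.Fam1 i').filter (fun u => u.2 ∣ n ∧ B ≤ u.2), tm E V j (E.g1 V i') n u else 0) +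
        ∑ u ∈ (E.Fam2 i').filter (fun u => u.2 ∣ n ∧ B ≤ u.2), tm E V j (E.g2 V i') n u) := by
    intro n hn
    obtain ⟨hn1, hn2⟩ := hcl n hn
    have hn0 : n ≠ 0 := by omega
    have h1 : ∀ q ∈ n.primeFactors.filter (fun q : ℕ => B ≤ q),
        (n.factorization q : ℝ) * (E.ghn V j i q * E.AA V j (n / q)) ≤
        ∑ i' ∈ R, (n.factorization q : ℝ) * (((if (i' : ℝ) ≤ 1.166 * i then
          ∑ u ∈ (E.Fam1 i').filter (fun u => u.2 = q), E.g1 V i' u else 0) +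
          ∑ u ∈ (E.Fam2 i').filter (fun u => u.2 = q), E.g2 V i' u) * E.AA V j (n / q)) := by
      intro q hq
      rw [mem_filter] at hq
      obtain ⟨hqp, hqd, _⟩ := Nat.mem_primeFactors.1 hq.1
      rw [← mul_sum, ← sum_mul]
      apply mul_le_mul_of_nonneg_left _ (Nat.cast_nonneg _)
      apply mul_le_mul_of_nonneg_right _ (AA_nonneg E V j _)
      have hsub : KEnv.hs j q ⊆ R := by
        intro i' hi'
        unfold KEnv.hs at hi'
        rw [mem_filter, mem_range] at hi'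
        rw [hR, mem_filter, mem_range]
        refine ⟨?_, hi'.2⟩
        have h2 : q ≤ 2 ^ (i + 1) := (Nat.le_of_dvd (by omega) hqd).trans hn2
        have h3 : Nat.log 2 q ≤ i + 1 := by
          calc Nat.log 2 q ≤ Nat.log 2 (2 ^ (i + 1)) := Nat.log_mono_right h2
            _ = i + 1 := Nat.log_pow (by norm_num) _
        omega
      have hnn : ∀ i' : ℕ, 0 ≤ ((if (i' : ℝ) ≤ 1.166 * i then
          ∑ u ∈ (E.Fam1 i').filter (fun u => u.2 = q), E.g1 V i' u else 0) +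
          ∑ u ∈ (E.Fam2 i').filter (fun u => u.2 = q), E.g2 V i' u) := by
        intro i'
        apply add_nonneg
        · split_ifs
          · exact sum_nonneg fun u _ => g1_nonneg E V i' u
          · exact le_rfl
        · exact sum_nonneg fun u _ => g2_nonneg E V i' u
      refine le_trans ?_ (sum_le_sum_of_subset_of_nonneg hsub fun i' _ _ => hnn i')
      unfold KEnv.ghn
      refine sum_le_sum fun i' hi' => ?_
      have hi'2 : j ≤ i' := by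
        unfold KEnv.hs at hi'
        exact (mem_filter.1 hi').2
      obtain ⟨hH1, hH2, _⟩ := hT' i' hi'2
      apply add_le_add
      · split_ifs
        · exact (hH1 q).2
        · exact le_rfl
      · exact (hH2 q).2
    refine (sum_le_sum h1).trans ?_
    rw [sum_comm]
    refine sum_le_sum fun i' hi' => ?_
    obtain ⟨hp1, hp2⟩ := hFam i' hi'
    have h2 : ∀ q : ℕ, (n.factorization q : ℝ) * (((if (i' : ℝ) ≤ 1.166 * i then
          ∑ u ∈ (E.Fam1 i').filter (fun u => u.2 = q), E.g1 V i' u else 0) +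
          ∑ u ∈ (E.Fam2 i').filter (fun u => u.2 = q), E.g2 V i' u) * E.AA V j (n / q)) =
        (if (i' : ℝ) ≤ 1.166 * i then (n.factorization q : ℝ) * ((∑ u ∈ (E.Fam1 i').filter (fun u => u.2 = q),
          E.g1 V i' u) * E.AA V j (n / q)) else 0) + (n.factorization q : ℝ) *
          ((∑ u ∈ (E.Fam2 i').filter (fun u => u.2 = q), E.g2 V i' u) * E.AA V j (n / q)) := by
      intro q
      split_ifs <;> ring
    simp only [h2]
    rw [sum_add_distrib, fiber E V j (E.Fam2 i') (E.g2 V i') B hn0 hp2]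
    apply add_le_add _ le_rfl
    split_ifs
    · rw [fiber E V j (E.Fam1 i') (E.g1 V i') B hn0 hp1]
    · rw [sum_const_zero]
  refine (sum_le_sum hstep1).trans ?_
  rw [sum_comm]
  -- step 2: split
  have hstep2 : ∑ i' ∈ R, ∑ n ∈ cell E.δ i k, ((if (i' : ℝ) ≤ 1.166 * i then
        ∑ u ∈ (E.Fam1 i').filter (fun u => u.2 ∣ n ∧ B ≤ u.2), tm E V j (E.g1 V i') n u else 0) +
        ∑ u ∈ (E.Fam2 i').filter (fun u => u.2 ∣ n ∧ B ≤ u.2), tm E V j (E.g2 V i') n u) ≤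
      ∑ i' ∈ R, ∑ n ∈ cell E.δ i k,
        ((if (i' : ℝ) ≤ 1.166 * i then ∑ u ∈ (E.Fam1 i').filter (fun u => u.2 ∣ n ∧ B ≤ u.2 ∧
            (¬ u.1 ∣ n / u.2 ∨ (2 : ℝ) ^ (0.31 * (i' : ℝ)) ≤ ((n / u.2 / u.1 : ℕ) : ℝ))),
            tm E V j (E.g1 V i') n u else 0) +
          ∑ u ∈ (E.Fam2 i').filter (fun u => u.2 ∣ n ∧ B ≤ u.2 ∧
            (¬ u.1 ∣ n / u.2 ∨ (2 : ℝ) ^ (0.12 * (i' : ℝ)) ≤ ((n / u.2 / u.1 : ℕ) : ℝ))),
            tm E V j (E.g2 V i') n u) +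
      ∑ i' ∈ R, ∑ n ∈ cell E.δ i k,
        (∑ u ∈ (E.Fam1 i').filter (fun u => u.1 * u.2 ∣ n ∧ u.1 * u.2 ≠ n ∧
            ((n / u.2 / u.1 : ℕ) : ℝ) < (2 : ℝ) ^ (0.31 * (i' : ℝ))), tm E V j (E.g1 V i') n u +
          ∑ u ∈ (E.Fam2 i').filter (fun u => u.1 * u.2 ∣ n ∧ u.1 * u.2 ≠ n ∧
            ((n / u.2 / u.1 : ℕ) : ℝ) < (2 : ℝ) ^ (0.12 * (i' : ℝ))), tm E V j (E.g2 V i') n u) +
      ∑ i' ∈ R, ∑ n ∈ cell E.δ i k,
        (∑ u ∈ (E.Fam1 i').filter (fun u => u.1 * u.2 = n), tm E V j (E.g1 V i') n u +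
          ∑ u ∈ (E.Fam2 i').filter (fun u => u.1 * u.2 = n), tm E V j (E.g2 V i') n u) := by
    rw [← sum_add_distrib, ← sum_add_distrib]
    refine sum_le_sum fun i' _ => ?_
    rw [← sum_add_distrib, ← sum_add_distrib]
    refine sum_le_sum fun n _ => ?_
    have h1 := split3 E V j (E.Fam1 i') B ((2 : ℝ) ^ (0.31 * (i' : ℝ))) (n := n) (fun u => g1_nonneg E V i' u)
    have h2 := split3 E V j (E.Fam2 i') B ((2 : ℝ) ^ (0.12 * (i' : ℝ))) (n := n) (fun u => g2_nonneg E V i' u)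
    have h3 : 0 ≤ ∑ u ∈ (E.Fam1 i').filter (fun u => u.1 * u.2 ∣ n ∧ u.1 * u.2 ≠ n ∧
        ((n / u.2 / u.1 : ℕ) : ℝ) < (2 : ℝ) ^ (0.31 * (i' : ℝ))), tm E V j (E.g1 V i') n u :=
      sum_nonneg fun u _ => tm_nonneg E V j (fun u => g1_nonneg E V i' u) n u
    have h4 : 0 ≤ ∑ u ∈ (E.Fam1 i').filter (fun u => u.1 * u.2 = n), tm E V j (E.g1 V i') n u :=
      sum_nonneg fun u _ => tm_nonneg E V j (fun u => g1_nonneg E V i' u) n u
    split_ifs <;> linarith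
  refine hstep2.trans ?_
  -- step 3: the exact part
  have hstep3 : ∑ i' ∈ R, ∑ n ∈ cell E.δ i k,
        (∑ u ∈ (E.Fam1 i').filter (fun u => u.1 * u.2 = n), tm E V j (E.g1 V i') n u +
          ∑ u ∈ (E.Fam2 i').filter (fun u => u.1 * u.2 = n), tm E V j (E.g2 V i') n u) ≤
      (if k ∈ E.B1 i ∪ E.B2 i then E.al * ww E.δ i else ww E.δ i / 32) + ε / 4 * ww E.δ i := by
    have hmem : i ∈ R := by
      rw [hR, mem_filter, mem_range]
      exact ⟨by omega, hi⟩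
    rw [sum_eq_single_of_mem i hmem]
    · obtain ⟨hF1, hF2⟩ := hFF E i (hji.trans hi)
      obtain ⟨_, _, hg, h4, h5⟩ := hT' i hi
      have e1 := exact_part E V j (cell E.δ i k) (E.Fam1 i) (E.g1 V i) (c := 1 + κ)
        (fun u hu => by
          obtain ⟨q1, q2, _, q3, _⟩ := hF1 u hu
          refine ⟨q2, q1.ne_zero, fun hd => ?_⟩
          have := Nat.le_of_dvd q1.pos hd
          omega)
        (fun u => g1_nonneg E V i u)
        (fun u hu => by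
          have := (hg u).2.1
          rw [if_neg hu] at this
          exact le_antisymm this (g1_nonneg E V i u))
        (fun u hu hV => hA' i hi u (mem_union_left _ hu) hV)
      have e2 := exact_part E V j (cell E.δ i k) (E.Fam2 i) (E.g2 V i) (c := 1 + κ)
        (fun u hu => by
          obtain ⟨q1, q2, q3, q4, _⟩ := hF2 u hu
          exact ⟨q3, by omega, q4⟩)
        (fun u => g2_nonneg E V i u)
        (fun u hu => by
          have := (hg u).2.2.2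
          rw [if_neg hu] at this
          exact le_antisymm this (g2_nonneg E V i u))
        (fun u hu hV => hA' i hi u (mem_union_right _ hu) hV)
      have h4' := mul_le_mul_of_nonneg_left (h4 k hk) (by linarith : 0 ≤ 1 + κ)
      have h5' := mul_le_mul_of_nonneg_left (h5 k hk) (by linarith : 0 ≤ 1 + κ)
      rw [sum_add_distrib]
      have hal64 : (E.B0 : ℝ) * E.al ≤ 1 / 64 := by
        unfold KEnv.al
        rw [mul_one_div, div_le_div_iff₀ (by positivity) (by norm_num)]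
        have : (0 : ℝ) ≤ E.B0 := Nat.cast_nonneg _
        linarith
      have hd := Finset.disjoint_left.1 (E.disj i)
      have hkw : κ * E.al * ww E.δ i ≤ ε / 4 * ww E.δ i := mul_le_mul_of_nonneg_right hκ2 hw
      by_cases hk1 : k ∈ E.B1 i
      · have hk2 : k ∉ E.B2 i := hd hk1
        rw [if_pos hk1] at h4'
        rw [if_neg hk2] at h5'
        rw [if_pos (mem_union_left _ hk1)]
        nlinarith
      · by_cases hk2 : k ∈ E.B2 i
        · rw [if_neg hk1, if_pos hk2] at h4'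
          rw [if_pos hk2] at h5'
          rw [if_pos (mem_union_right _ hk2)]
          nlinarith
        · rw [if_neg hk1, if_neg hk2] at h4'
          rw [if_neg hk2] at h5'
          rw [if_neg (by rw [mem_union]; tauto)]
          have h6 : (1 + κ) * ((E.B0 : ℝ) * (E.al * ww E.δ i)) ≤ ww E.δ i / 32 := by
            have h7 : (E.B0 : ℝ) * (E.al * ww E.δ i) ≤ 1 / 64 * ww E.δ i := by
              rw [← mul_assoc]
              exact mul_le_mul_of_nonneg_right hal64 hw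
            have h8 : 0 ≤ (E.B0 : ℝ) * (E.al * ww E.δ i) := by positivity
            nlinarith
          have h9 : 0 ≤ ε / 4 * ww E.δ i := by positivity
          linarith
    · intro i' hi' hne
      apply sum_eq_zero
      intro n hn
      obtain ⟨hn1, hn2⟩ := hcl n hn
      rw [hR, mem_filter] at hi'
      obtain ⟨hF1, hF2⟩ := hFF E i' (hji.trans hi'.2)
      rw [filter_eq_empty_iff.2, filter_eq_empty_iff.2, sum_empty, sum_empty, add_zero]
      · intro u hu h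
        obtain ⟨_, _, _, _, _, _, _, _, q1, q2, _⟩ := hF2 u hu
        rw [h] at q1 q2
        exact exact_zero hne hn1 hn2 q1 q2
      · intro u hu h
        obtain ⟨_, _, _, _, _, q1, q2, _⟩ := hF1 u hu
        rw [h] at q1 q2
        exact exact_zero hne hn1 hn2 q1 q2
  have ha2 : ∑ i' ∈ R, ∑ n ∈ cell E.δ i k,
        ((if (i' : ℝ) ≤ 1.166 * i then ∑ u ∈ (E.Fam1 i').filter (fun u => u.2 ∣ n ∧ B ≤ u.2 ∧
            (¬ u.1 ∣ n / u.2 ∨ (2 : ℝ) ^ (0.31 * (i' : ℝ)) ≤ ((n / u.2 / u.1 : ℕ) : ℝ))),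
            tm E V j (E.g1 V i') n u else 0) +
          ∑ u ∈ (E.Fam2 i').filter (fun u => u.2 ∣ n ∧ B ≤ u.2 ∧
            (¬ u.1 ∣ n / u.2 ∨ (2 : ℝ) ^ (0.12 * (i' : ℝ)) ≤ ((n / u.2 / u.1 : ℕ) : ℝ))),
            tm E V j (E.g2 V i') n u) ≤ ε / 4 * ww E.δ i := ha'
  have hb2 : ∑ i' ∈ R, ∑ n ∈ cell E.δ i k,
        (∑ u ∈ (E.Fam1 i').filter (fun u => u.1 * u.2 ∣ n ∧ u.1 * u.2 ≠ n ∧
            ((n / u.2 / u.1 : ℕ) : ℝ) < (2 : ℝ) ^ (0.31 * (i' : ℝ))), tm E V j (E.g1 V i') n u +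
          ∑ u ∈ (E.Fam2 i').filter (fun u => u.1 * u.2 ∣ n ∧ u.1 * u.2 ≠ n ∧
            ((n / u.2 / u.1 : ℕ) : ℝ) < (2 : ℝ) ^ (0.12 * (i' : ℝ))), tm E V j (E.g2 V i') n u) ≤
        ε / 4 * ww E.δ i := hb'
  have : 0 ≤ ε * ww E.δ i := by positivity
  linarith

end Pool.Agent.Q63.KZ
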