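import Pool.Agent.Q63.KZ.B

/-!
# Project KZ, job HPa: pairs with `u.1 ∤ n/u.2` or with a large cofactor
-/

set_option autoImplicit false

namespace Pool.Agent.Q63.KZ

open Finset Filter Topology MeasureTheory
open scoped Classical
open Pool.Agent.W76.MO (hh nc cell lp Rough hh_pos floor_le_i hh_dvd nc_mul)
open Q236.CM (LP LP_one LP_mul LP_prime LP_sqf LP_nonneg LP_le LP_pow LP_mul_fun LP_div)
open Pool.Agent.Q18.KZ

/-- polynomial times exponential decay -/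
theorem poly_exp (K c ε : ℝ) (m : ℕ) (hc : 0 < c) (hε : 0 < ε) : ∃ J : ℕ, ∀ i : ℕ, J ≤ i →
    K * ((i : ℝ) ^ m * (2 : ℝ) ^ (-(c * (i : ℝ)))) ≤ ε := by
  have h1 : (2 : ℝ) ^ (-c) < 1 := Real.rpow_lt_one_of_one_lt_of_neg (by norm_num) (by linarith)
  have h2 := tendsto_pow_const_mul_const_pow_of_lt_one m (by positivity : (0 : ℝ) ≤ (2 : ℝ) ^ (-c)) h1
  have h3 := h2.const_mul K
  rw [mul_zero] at h3
  obtain ⟨J, hJ⟩ := eventually_atTop.1 (h3.eventually (gt_mem_nhds hε))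
  refine ⟨J, fun i hi => ?_⟩
  have h4 := (hJ i hi).le
  have h5 : ((2 : ℝ) ^ (-c)) ^ i = (2 : ℝ) ^ (-(c * (i : ℝ))) := by
    rw [← Real.rpow_natCast, ← Real.rpow_mul (by norm_num)]
    congr 1
    ring
  rw [h5] at h4
  exact h4

theorem Ld_eq (E : KEnv) (V : ℕ → Bool) (F : Finset (ℕ × ℕ)) (j i I a b : ℕ) (c : ℕ → ℕ × ℕ → Prop) :
    Ld E V F j i I a b c = ∑ n ∈ Ioc a b, ∑ u ∈ F, if Rg j n ∧ Vn V u.1 ∧ u.2 ∣ n ∧
      (2 : ℝ) ^ ((I : ℝ) / 10 ^ 6) ≤ (u.2 : ℝ) ∧ c n u then E.TT i u.1 * SV V (n / u.2) else 0 := by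
  unfold Ld
  rw [sum_filter]
  refine sum_congr rfl fun n _ => ?_
  by_cases hR : Rg j n
  · rw [if_pos hR, sum_filter]
    refine sum_congr rfl fun u _ => ?_
    simp only [hR, true_and]
  · rw [if_neg hR]
    symm
    apply sum_eq_zero
    intro u _
    rw [if_neg]
    exact fun h => hR h.1

theorem fact_le {n p i : ℕ} (hn : n ≠ 0) (hi : n ≤ 2 ^ (i + 1)) (hp : p.Prime) :
    n.factorization p ≤ i + 1 := by
  have h1 : p ^ n.factorization p ≤ n := Nat.ordProj_le p hn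
  have h2 : 2 ^ n.factorization p ≤ p ^ n.factorization p := Nat.pow_le_pow_left hp.two_le _
  exact (Nat.pow_le_pow_iff_right (by norm_num : 1 < 2)).1 (h2.trans (h1.trans hi))

/-- the contribution of one family -/
theorem load_le (E : KEnv) (V : ℕ → Bool) {j i i' a b : ℕ} {C D X : ℝ} (F : Finset (ℕ × ℕ)) (g : ℕ × ℕ → ℝ)
    (hC : 0 ≤ C) (hD : 0 ≤ D) (hb : b ≤ 2 ^ (i + 1))
    (hF : ∀ u ∈ F, u.2.Prime ∧ 2 ^ (j / 10) ≤ u.2) (hg0 : ∀ u, 0 ≤ g u)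
    (hg : ∀ u, g u ≤ if Vn V u.1 then C * E.TT i' u.1 else 0)
    (hA : ∀ n : ℕ, n ≠ 0 → n ≤ 2 ^ (i + 1) → E.AA V j n ≤ if Rg j n then D * SV V n else 0) :
    ∑ n ∈ Ioc a b, ∑ u ∈ F.filter (fun u => u.2 ∣ n ∧ (2 : ℝ) ^ ((i : ℝ) / 10 ^ 6) ≤ u.2 ∧
        (¬ u.1 ∣ n / u.2 ∨ X ≤ ((n / u.2 / u.1 : ℕ) : ℝ))),
        (n.factorization u.2 : ℝ) * (g u * E.AA V j (n / u.2)) ≤
      (i + 1) * (C * D) * (Ld E V F j i' i a b (fun n u => ¬ u.1 ∣ n / u.2) +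
        Ld E V F j i' i a b (fun n u => u.1 ∣ n / u.2 ∧ X ≤ ((n / u.2 / u.1 : ℕ) : ℝ))) := by
  rw [Ld_eq, Ld_eq, ← sum_add_distrib, mul_sum]
  refine sum_le_sum fun n hn => ?_
  rw [mem_Ioc] at hn
  have hn0 : n ≠ 0 := by omega
  have hn2 : n ≤ 2 ^ (i + 1) := hn.2.trans hb
  rw [sum_filter, ← sum_add_distrib, mul_sum]
  refine sum_le_sum fun u hu => ?_
  obtain ⟨hup, hul⟩ := hF u hu
  have hT := TT_nonneg E i' u.1
  have hS := SV_nonneg V (n / u.2)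
  have hXX := mul_nonneg hT hS
  have hKK : 0 ≤ ((i : ℝ) + 1) * (C * D) := by positivity
  by_cases hP : u.2 ∣ n ∧ (2 : ℝ) ^ ((i : ℝ) / 10 ^ 6) ≤ u.2 ∧
      (¬ u.1 ∣ n / u.2 ∨ X ≤ ((n / u.2 / u.1 : ℕ) : ℝ))
  · rw [if_pos hP]
    obtain ⟨hd, hl, hor⟩ := hP
    obtain ⟨r, hr⟩ := hd
    have hr0 : r ≠ 0 := by rintro rfl; simp at hr; omega
    have hnr : n / u.2 = r := by rw [hr, Nat.mul_div_cancel_left r hup.pos]
    have hrn : r ≤ n := by rw [hr]; exact Nat.le_mul_of_pos_left r hup.pos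
    have hA' := hA r hr0 (hrn.trans hn2)
    rw [hnr] at hS hXX hor ⊢
    have hAA := AA_nonneg E V j r
    have hg' := hg u
    have hg0' := hg0 u
    by_cases hR : Rg j n
    · by_cases hV : Vn V u.1
      · rw [if_pos hV] at hg'
        have hRr : Rg j r := ⟨hr0, fun p hp hpd => hR.2 p hp (hpd.trans (by rw [hr]; exact dvd_mul_left _ _))⟩
        rw [if_pos hRr] at hA'
        have h4 : (n.factorization u.2 : ℝ) ≤ (i : ℝ) + 1 := by
          exact_mod_cast fact_le hn0 hn2 hup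
        have hmain : (n.factorization u.2 : ℝ) * (g u * E.AA V j r) ≤
            ((i : ℝ) + 1) * (C * D) * (E.TT i' u.1 * SV V r) := by
          calc (n.factorization u.2 : ℝ) * (g u * E.AA V j r)
              ≤ ((i : ℝ) + 1) * ((C * E.TT i' u.1) * (D * SV V r)) :=
                mul_le_mul h4 (mul_le_mul hg' hA' hAA (by positivity)) (mul_nonneg hg0' hAA) (by positivity)
            _ = _ := by ring
        by_cases hdv : u.1 ∣ r
        · have hX : X ≤ ((r / u.1 : ℕ) : ℝ) := by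
            rcases hor with h | h
            · exact absurd hdv h
            · exact h
          rw [if_neg (fun h => h.2.2.2.2 hdv), if_pos ⟨hR, hV, ⟨r, hr⟩, hl, hdv, hX⟩, zero_add]
          exact hmain
        · rw [if_pos ⟨hR, hV, ⟨r, hr⟩, hl, hdv⟩, if_neg (fun h => hdv h.2.2.2.2.1), add_zero]
          exact hmain
      · rw [if_neg hV] at hg'
        have h5 : g u = 0 := le_antisymm hg' hg0'
        rw [h5, zero_mul, mul_zero]
        refine mul_nonneg hKK (add_nonneg ?_ ?_)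
        · split_ifs
          · exact hXX
          · exact le_rfl
        · split_ifs
          · exact hXX
          · exact le_rfl
    · have hRr : ¬ Rg j r := by
        intro h
        apply hR
        refine ⟨hn0, fun p hp hpd => ?_⟩
        rw [hr] at hpd
        rcases (Nat.Prime.dvd_mul hp).1 hpd with h6 | h6
        · have h7 : p = u.2 := (Nat.prime_dvd_prime_iff_eq hp hup).1 h6
          rw [h7]
          exact hul
        · exact h.2 p hp h6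
      rw [if_neg hRr] at hA'
      have h5 : E.AA V j r = 0 := le_antisymm hA' hAA
      rw [h5, mul_zero, mul_zero]
      refine mul_nonneg hKK (add_nonneg ?_ ?_)
      · split_ifs
        · exact hXX
        · exact le_rfl
      · split_ifs
        · exact hXX
        · exact le_rfl
  · rw [if_neg hP]
    refine mul_nonneg hKK (add_nonneg ?_ ?_)
    · split_ifs
      · exact hXX
      · exact le_rfl
    · split_ifs
      · exact hXX
      · exact le_rfl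

/-- the upper bound of `hh` by the square root -/
theorem hh_le_half (δ : ℝ) (hδ : 0 < δ) (hδ' : δ ≤ 1 / 2) (i : ℕ) : (hh δ i : ℝ) ≤ (2 : ℝ) ^ ((i : ℝ) / 2) := by
  refine (hh_le δ hδ' i).trans ?_
  apply Real.rpow_le_rpow_of_exponent_le (by norm_num)
  have : (0 : ℝ) ≤ i := Nat.cast_nonneg i
  nlinarith

theorem cell_bd (δ : ℝ) (hδ : 0 < δ) (hδ' : δ ≤ 1 / 2) {i k : ℕ} (hk : k < nc δ i) :
    2 ^ i ≤ 2 ^ i + k * hh δ i ∧ 2 ^ i + k * hh δ i ≤ 2 ^ i + (k + 1) * hh δ i ∧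
      2 ^ i + (k + 1) * hh δ i ≤ 2 ^ (i + 1) ∧
      (((2 ^ i + (k + 1) * hh δ i : ℕ) : ℝ)) - ((2 ^ i + k * hh δ i : ℕ) : ℝ) ≤ (2 : ℝ) ^ ((i : ℝ) / 2) := by
  have h1 := nc_mul δ hδ i
  have h2 : (k + 1) * hh δ i ≤ nc δ i * hh δ i := Nat.mul_le_mul_right _ hk
  refine ⟨by omega, ?_, ?_, ?_⟩
  · have : k * hh δ i ≤ (k + 1) * hh δ i := Nat.mul_le_mul_right _ (Nat.le_succ k)
    omega
  · rw [pow_succ]
    omega
  · push_cast
    have := hh_le_half δ hδ hδ' i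
    linarith

theorem t_HPa (hDT : S_DT) (hDSV : S_DSV) (hFF : S_FF) : S_HPa := by
  intro E ε hε
  obtain ⟨C, hC1, hT⟩ := hDT E
  obtain ⟨η₀, J₀, hη₀, hSV⟩ := hDSV E
  obtain ⟨J₁, hJ₁⟩ := poly_exp (4 * C * 13 * 2) (1 / 10 ^ 14) ε 42 (by positivity) hε
  refine ⟨η₀, max (max J₀ J₁) (max E.i₁ 100), hη₀, ?_⟩
  intro η j V hη hηle hj hEv i k hi hk
  have hjJ₀ : J₀ ≤ j := le_trans (le_trans (le_max_left _ _) (le_max_left _ _)) hj
  have hjJ₁ : J₁ ≤ j := le_trans (le_trans (le_max_right _ _) (le_max_left _ _)) hj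
  have hji : E.i₁ ≤ j := le_trans (le_trans (le_max_left _ _) (le_max_right _ _)) hj
  have hj100 : 100 ≤ j := le_trans (le_trans (le_max_right _ _) (le_max_right _ _)) hj
  have hδ := E.hδ
  have hδ' := E.hδ'
  have hδ2 : E.δ ≤ 1 / 2 := hδ'.trans (by norm_num)
  have hSV' := hSV η j V hη hηle hjJ₀ hEv
  have hT' := hT j hji V (fun p hp => (hEv.sub p hp).1) hEv.o1 hEv.o2
  have hC0 : 0 ≤ C := by linarith
  set a := 2 ^ i + k * hh E.δ i with ha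
  set b := 2 ^ i + (k + 1) * hh E.δ i with hb
  obtain ⟨hb1, hb2, hb3, hb4⟩ := cell_bd E.δ hδ hδ2 hk
  have hcell : cell E.δ i k = Ioc a b := rfl
  rw [hcell]
  have hi1 : 1 ≤ i := by omega
  have hi1' : (1 : ℝ) ≤ i := by exact_mod_cast hi1
  set D : ℝ := (2 : ℝ) ^ ((i : ℝ) / 10 ^ 14) with hD
  have hD0 : 0 ≤ D := by positivity
  set R : ℝ := (2 : ℝ) ^ (-(1 / 2 + 3 / 10 ^ 14) * (i : ℝ)) with hR
  have hR0 : 0 < R := by positivity
  have hA : ∀ n : ℕ, n ≠ 0 → n ≤ 2 ^ (i + 1) → E.AA V j n ≤ if Rg j n then D * SV V n else 0 := by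
    intro n hn hn2
    apply hSV' i n (by omega) hn
    exact hn2.trans (Nat.pow_le_pow_right (by norm_num) (by omega))
  have hone : ∀ i' ∈ (range (4 * i + 9)).filter (fun i' => j ≤ i'),
      ∑ n ∈ Ioc a b, ((if (i' : ℝ) ≤ 1.166 * i then ∑ u ∈ (E.Fam1 i').filter (fun u => u.2 ∣ n ∧
        (2 : ℝ) ^ ((i : ℝ) / 10 ^ 6) ≤ u.2 ∧ (¬ u.1 ∣ n / u.2 ∨ (2 : ℝ) ^ (0.31 * (i' : ℝ)) ≤ ((n / u.2 / u.1 : ℕ) : ℝ))),
        (n.factorization u.2 : ℝ) * (E.g1 V i' u * E.AA V j (n / u.2)) else 0) +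
      ∑ u ∈ (E.Fam2 i').filter (fun u => u.2 ∣ n ∧ (2 : ℝ) ^ ((i : ℝ) / 10 ^ 6) ≤ u.2 ∧
        (¬ u.1 ∣ n / u.2 ∨ (2 : ℝ) ^ (0.12 * (i' : ℝ)) ≤ ((n / u.2 / u.1 : ℕ) : ℝ))),
        (n.factorization u.2 : ℝ) * (E.g2 V i' u * E.AA V j (n / u.2))) ≤
      ((i : ℝ) + 1) * (C * D) * (4 * R) := by
    intro i' hi'
    rw [mem_filter] at hi'
    have hji' := hi'.2
    obtain ⟨hF1, hF2⟩ := hFF E i' (hji.trans hji')
    obtain ⟨_, _, hg, _, _⟩ := hT' i' hji'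
    obtain ⟨hN1, hN2⟩ := hEv.hn i a b i' hi hji' hb1 hb2 hb3 hb4
    obtain ⟨hD1, hD2⟩ := hEv.hd i a b i' hi hji' hb1 hb2 hb3 hb4
    have hi'0 : (0 : ℝ) ≤ i' := Nat.cast_nonneg i'
    have hpow : ((2 ^ (j / 10) : ℕ) : ℝ) ≤ (2 : ℝ) ^ (0.25 * (i' : ℝ)) := by
      push_cast
      rw [← Real.rpow_natCast]
      apply Real.rpow_le_rpow_of_exponent_le (by norm_num)
      have h1 : 10 * (j / 10) ≤ i' := by omega
      have h2 : 10 * ((j / 10 : ℕ) : ℝ) ≤ (i' : ℝ) := by exact_mod_cast h1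
      linarith
    have hF1' : ∀ u ∈ E.Fam1 i', u.2.Prime ∧ 2 ^ (j / 10) ≤ u.2 := by
      intro u hu
      obtain ⟨_, h1, _, _, h2, _⟩ := hF1 u hu
      refine ⟨h1, ?_⟩
      have h3 : (2 : ℝ) ^ (0.25 * (i' : ℝ)) ≤ (2 : ℝ) ^ (0.615 * (i' : ℝ)) := by
        apply Real.rpow_le_rpow_of_exponent_le (by norm_num)
        linarith
      exact_mod_cast hpow.trans (h3.trans h2)
    have hF2' : ∀ u ∈ E.Fam2 i', u.2.Prime ∧ 2 ^ (j / 10) ≤ u.2 := by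
      intro u hu
      obtain ⟨_, _, h1, _, _, _, _, h2, _⟩ := hF2 u hu
      exact ⟨h1, by exact_mod_cast hpow.trans h2⟩
    have hK : 0 ≤ ((i : ℝ) + 1) * (C * D) := by positivity
    rw [sum_add_distrib]
    have hS1 : ∑ n ∈ Ioc a b, (if (i' : ℝ) ≤ 1.166 * i then ∑ u ∈ (E.Fam1 i').filter (fun u => u.2 ∣ n ∧
        (2 : ℝ) ^ ((i : ℝ) / 10 ^ 6) ≤ u.2 ∧ (¬ u.1 ∣ n / u.2 ∨ (2 : ℝ) ^ (0.31 * (i' : ℝ)) ≤ ((n / u.2 / u.1 : ℕ) : ℝ))),
        (n.factorization u.2 : ℝ) * (E.g1 V i' u * E.AA V j (n / u.2)) else 0) ≤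
        ((i : ℝ) + 1) * (C * D) * (2 * R) := by
      by_cases h : (i' : ℝ) ≤ 1.166 * i
      · simp only [if_pos h]
        refine (load_le E V (i' := i') (X := (2 : ℝ) ^ (0.31 * (i' : ℝ))) (E.Fam1 i') (E.g1 V i') hC0 hD0 hb3
          hF1' (fun u => g1_nonneg E V i' u) (fun u => (hg u).2.1) hA).trans ?_
        apply mul_le_mul_of_nonneg_left _ hK
        have h1 := hN1 h
        linarith
      · simp only [if_neg h, sum_const_zero]
        positivity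
    have hS2 : ∑ n ∈ Ioc a b, ∑ u ∈ (E.Fam2 i').filter (fun u => u.2 ∣ n ∧ (2 : ℝ) ^ ((i : ℝ) / 10 ^ 6) ≤ u.2 ∧
        (¬ u.1 ∣ n / u.2 ∨ (2 : ℝ) ^ (0.12 * (i' : ℝ)) ≤ ((n / u.2 / u.1 : ℕ) : ℝ))),
        (n.factorization u.2 : ℝ) * (E.g2 V i' u * E.AA V j (n / u.2)) ≤
        ((i : ℝ) + 1) * (C * D) * (2 * R) := by
      refine (load_le E V (i' := i') (X := (2 : ℝ) ^ (0.12 * (i' : ℝ))) (E.Fam2 i') (E.g2 V i') hC0 hD0 hb3
        hF2' (fun u => g2_nonneg E V i' u) (fun u => (hg u).2.2.2) hA).trans ?_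
      apply mul_le_mul_of_nonneg_left _ hK
      linarith
    linarith
  refine (sum_le_card_nsmul _ _ _ hone).trans ?_
  rw [nsmul_eq_mul]
  have hcard : ((((range (4 * i + 9)).filter (fun i' => j ≤ i')).card : ℕ) : ℝ) ≤ 13 * i := by
    have h1 : ((range (4 * i + 9)).filter (fun i' => j ≤ i')).card ≤ 4 * i + 9 := by
      refine (card_filter_le _ _).trans ?_
      rw [card_range]
    have h2 : ((((range (4 * i + 9)).filter (fun i' => j ≤ i')).card : ℕ) : ℝ) ≤ 4 * i + 9 := by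
      exact_mod_cast h1
    linarith
  have hmain := hJ₁ i (hjJ₁.trans hi)
  have hww : ww E.δ i = (2 : ℝ) ^ (-(1 / 2 + E.δ / 2) * (i : ℝ)) / (i : ℝ) ^ 40 := rfl
  have hDR : D * R ≤ (2 : ℝ) ^ (-(1 / 10 ^ 14 * (i : ℝ))) * (2 : ℝ) ^ (-(1 / 2 + E.δ / 2) * (i : ℝ)) := by
    rw [hD, hR, ← Real.rpow_add (by norm_num), ← Real.rpow_add (by norm_num)]
    apply Real.rpow_le_rpow_of_exponent_le (by norm_num)
    have h1 : E.δ / 2 * (i : ℝ) ≤ 1 / 10 ^ 14 * (i : ℝ) := by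
      apply mul_le_mul_of_nonneg_right _ (by positivity)
      have : (1 : ℝ) / 10 ^ 24 ≤ 1 / 10 ^ 14 := by norm_num
      linarith
    have h2 : (i : ℝ) / 10 ^ 14 + -(1 / 2 + 3 / 10 ^ 14) * (i : ℝ) = -(1 / 10 ^ 14 * (i : ℝ)) - 1 / 2 * i - 1 / 10 ^ 14 * i := by
      ring
    have h3 : -(1 / 10 ^ 14 * (i : ℝ)) + -(1 / 2 + E.δ / 2) * (i : ℝ) =
        -(1 / 10 ^ 14 * (i : ℝ)) - 1 / 2 * i - E.δ / 2 * i := by ring
    rw [h2, h3]
    linarith
  have hi40 : (0 : ℝ) < (i : ℝ) ^ 40 := by positivity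
  calc ((((range (4 * i + 9)).filter (fun i' => j ≤ i')).card : ℕ) : ℝ) * (((i : ℝ) + 1) * (C * D) * (4 * R))
      ≤ (13 * i) * ((2 * i) * (C * D) * (4 * R)) := by
        apply mul_le_mul hcard _ (by positivity) (by positivity)
        apply mul_le_mul_of_nonneg_right _ (by positivity)
        apply mul_le_mul_of_nonneg_right _ (by positivity)
        linarith
    _ = (4 * C * 13 * 2) * ((i : ℝ) ^ 2 * (D * R)) := by ring
    _ ≤ (4 * C * 13 * 2) * ((i : ℝ) ^ 2 * ((2 : ℝ) ^ (-(1 / 10 ^ 14 * (i : ℝ))) *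
          (2 : ℝ) ^ (-(1 / 2 + E.δ / 2) * (i : ℝ)))) := by
        apply mul_le_mul_of_nonneg_left _ (by positivity)
        exact mul_le_mul_of_nonneg_left hDR (by positivity)
    _ = ((4 * C * 13 * 2) * ((i : ℝ) ^ 42 * (2 : ℝ) ^ (-(1 / 10 ^ 14 * (i : ℝ))))) * ww E.δ i := by
        rw [hww]
        field_simp
    _ ≤ ε * ww E.δ i := mul_le_mul_of_nonneg_right hmain (ww_nonneg _ _)

end Pool.Agent.Q63.KZ
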