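import Pool.Agent.Q18.KZ.S3

/-!
# Project KZ: basic facts (cells, nonnegativity)
-/

set_option autoImplicit false

namespace Pool.Agent.Q63.KZ

open Finset Filter Topology MeasureTheory
open scoped Classical
open Pool.Agent.W76.MO (hh nc cell lp Rough hh_pos floor_le_i hh_dvd nc_mul)
open Q236.CM (LP LP_one LP_mul LP_prime LP_sqf LP_nonneg LP_le LP_pow LP_mul_fun LP_div)
open Pool.Agent.Q18.KZ

/-! ### cells -/

theorem cell_loc (δ : ℝ) (hδ : 0 < δ) {i k p : ℕ} (hk : k < nc δ i) (hp : p ∈ cell δ i k) :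
    2 ^ i < p ∧ p ≤ 2 ^ (i + 1) ∧ KEnv.sc p = i := by
  have h := Pool.Agent.W76.MO.cell_loc δ hδ i k p hk hp
  refine ⟨by omega, h.2.1, ?_⟩
  exact h.2.2

theorem cell_kx (E : KEnv) {i k p : ℕ} (hk : k < nc E.δ i) (hp : p ∈ cell E.δ i k) :
    E.kx p = k := by
  have h := (cell_loc E.δ E.hδ hk hp).2.2
  unfold KEnv.kx
  rw [h]
  unfold cell at hp
  rw [mem_Ioc] at hp
  have hpos := hh_pos E.δ i
  apply Nat.div_eq_of_lt_le
  · omega
  · omega

/-- every number `p ≥ 2` lies in the cell `(sc p, kx p)` -/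
theorem mem_cell (E : KEnv) {p : ℕ} (hp : 2 ≤ p) :
    E.kx p < nc E.δ (KEnv.sc p) ∧ p ∈ cell E.δ (KEnv.sc p) (E.kx p) ∧
      2 ^ KEnv.sc p < p ∧ p ≤ 2 ^ (KEnv.sc p + 1) := by
  have h1 : 2 ^ KEnv.sc p ≤ p - 1 := by
    unfold KEnv.sc
    exact Nat.pow_log_le_self 2 (by omega)
  have h2 : p - 1 < 2 ^ (KEnv.sc p + 1) := by
    unfold KEnv.sc
    exact Nat.lt_pow_succ_log_self (by norm_num) (p - 1)
  set i := KEnv.sc p with hi
  set k := E.kx p with hk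
  have hpos := hh_pos E.δ i
  have hk' : k = (p - 1 - 2 ^ i) / hh E.δ i := rfl
  have h3 : k * hh E.δ i ≤ p - 1 - 2 ^ i := by rw [hk']; exact Nat.div_mul_le_self _ _
  have h4 : p - 1 - 2 ^ i < (k + 1) * hh E.δ i := by
    have h5 : p - 1 - 2 ^ i < hh E.δ i * ((p - 1 - 2 ^ i) / hh E.δ i + 1) :=
      Nat.lt_mul_div_succ (p - 1 - 2 ^ i) hpos
    rw [hk', mul_comm]
    exact h5
  have hkn : k < nc E.δ i := by
    have h5 := nc_mul E.δ E.hδ i
    have h6 : k * hh E.δ i < nc E.δ i * hh E.δ i := by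
      rw [h5]
      rw [pow_succ] at h2
      omega
    exact lt_of_mul_lt_mul_right h6 (Nat.zero_le _)
  refine ⟨hkn, ?_, by omega, by omega⟩
  unfold cell
  rw [mem_Ioc]
  omega

theorem hh_le (δ : ℝ) (hδ : δ ≤ 1 / 2) (i : ℕ) : (hh δ i : ℝ) ≤ (2 : ℝ) ^ ((1 / 2 - δ) * (i : ℝ)) := by
  unfold hh
  push_cast
  rw [← Real.rpow_natCast]
  apply Real.rpow_le_rpow_of_exponent_le (by norm_num)
  apply Nat.floor_le
  have : (0 : ℝ) ≤ i := Nat.cast_nonneg i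
  have : 0 ≤ 1 / 2 - δ := by linarith
  positivity

theorem le_hh (δ : ℝ) (i : ℕ) : (2 : ℝ) ^ ((1 / 2 - δ) * (i : ℝ) - 1) ≤ (hh δ i : ℝ) := by
  unfold hh
  push_cast
  rw [← Real.rpow_natCast]
  apply Real.rpow_le_rpow_of_exponent_le (by norm_num)
  have := Nat.lt_floor_add_one ((1 / 2 - δ) * (i : ℝ))
  linarith

theorem hh_pos' (δ : ℝ) (i : ℕ) : (0 : ℝ) < hh δ i := by
  exact_mod_cast hh_pos δ i

theorem nc_le (δ : ℝ) (hδ : 0 < δ) (i : ℕ) : (nc δ i : ℝ) ≤ 2 * (2 : ℝ) ^ ((1 / 2 + δ) * (i : ℝ)) := by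
  have h1 := nc_mul δ hδ i
  have h2 : (nc δ i : ℝ) * hh δ i = (2 : ℝ) ^ (i : ℝ) := by
    rw [Real.rpow_natCast]
    exact_mod_cast h1
  have h3 := le_hh δ i
  have h4 : (nc δ i : ℝ) * (2 : ℝ) ^ ((1 / 2 - δ) * (i : ℝ) - 1) ≤ (2 : ℝ) ^ (i : ℝ) := by
    rw [← h2]
    exact mul_le_mul_of_nonneg_left h3 (Nat.cast_nonneg _)
  have h5 : (2 : ℝ) ^ (i : ℝ) = (2 * (2 : ℝ) ^ ((1 / 2 + δ) * (i : ℝ))) * (2 : ℝ) ^ ((1 / 2 - δ) * (i : ℝ) - 1) := by
    have : (2 : ℝ) * (2 : ℝ) ^ ((1 / 2 + δ) * (i : ℝ)) = (2 : ℝ) ^ (1 + (1 / 2 + δ) * (i : ℝ)) := by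
      rw [Real.rpow_add (by norm_num), Real.rpow_one]
    rw [this, ← Real.rpow_add (by norm_num)]
    congr 1
    ring
  rw [h5] at h4
  exact le_of_mul_le_mul_right h4 (by positivity)

theorem ww_pos (δ : ℝ) {i : ℕ} (hi : 1 ≤ i) : 0 < ww δ i := by
  unfold ww
  have : (0 : ℝ) < i := by exact_mod_cast hi
  positivity

theorem ww_nonneg (δ : ℝ) (i : ℕ) : 0 ≤ ww δ i := by
  unfold ww
  positivity

theorem al_pos (E : KEnv) : 0 < E.al := by
  unfold KEnv.al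
  positivity

theorem al_nonneg (E : KEnv) : 0 ≤ E.al := (al_pos E).le

/-! ### nonnegativity -/

theorem aV_nonneg (V : ℕ → Bool) (p : ℕ) : 0 ≤ aV V p := by
  unfold aV
  split_ifs <;> positivity

theorem gu_nonneg (E : KEnv) (j p : ℕ) : 0 ≤ E.gu j p := by
  unfold KEnv.gu
  have := ww_nonneg E.δ (KEnv.sc p)
  split_ifs <;> positivity

theorem Om1_nonneg (E : KEnv) (V : ℕ → Bool) (i k : ℕ) : 0 ≤ E.Om1 V i k := by
  unfold KEnv.Om1
  exact sum_nonneg fun _ _ => by positivity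

theorem Om2_nonneg (E : KEnv) (V : ℕ → Bool) (i k : ℕ) : 0 ≤ E.Om2 V i k := by
  unfold KEnv.Om2
  exact sum_nonneg fun _ _ => by positivity

theorem G1a_nonneg (E : KEnv) (V : ℕ → Bool) (i k q : ℕ) : 0 ≤ E.G1a V i k q := by
  unfold KEnv.G1a
  have h1 := al_nonneg E
  have h2 := ww_nonneg E.δ i
  have h3 := Om1_nonneg E V i k
  refine mul_nonneg (mul_nonneg h1 h2) (sum_nonneg fun v _ => ?_)
  refine mul_nonneg (by positivity) (add_nonneg ?_ ?_) <;> split_ifs <;> positivity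

theorem G2_nonneg (E : KEnv) (V : ℕ → Bool) (i k q : ℕ) : 0 ≤ E.G2 V i k q := by
  unfold KEnv.G2
  have h1 := al_nonneg E
  have h2 := ww_nonneg E.δ i
  have h3 := Om2_nonneg E V i k
  exact mul_nonneg (mul_nonneg h1 h2) (sum_nonneg fun v _ => by positivity)

theorem H1_nonneg (E : KEnv) (V : ℕ → Bool) (i q : ℕ) : 0 ≤ E.H1 V i q :=
  sum_nonneg fun k _ => G1a_nonneg E V i k q

theorem H2_nonneg (E : KEnv) (V : ℕ → Bool) (i q : ℕ) : 0 ≤ E.H2 V i q :=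
  sum_nonneg fun k _ => G2_nonneg E V i k q

theorem gh_nonneg (E : KEnv) (V : ℕ → Bool) (j q : ℕ) : 0 ≤ E.gh V j q :=
  sum_nonneg fun i _ => add_nonneg (H1_nonneg E V i q) (H2_nonneg E V i q)

theorem ghn_nonneg (E : KEnv) (V : ℕ → Bool) (j I q : ℕ) : 0 ≤ E.ghn V j I q := by
  refine sum_nonneg fun i _ => add_nonneg ?_ (H2_nonneg E V i q)
  split_ifs
  · exact H1_nonneg E V i q
  · exact le_rfl

theorem ghn_le (E : KEnv) (V : ℕ → Bool) (j I q : ℕ) : E.ghn V j I q ≤ E.gh V j q := by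
  refine sum_le_sum fun i _ => add_le_add ?_ le_rfl
  split_ifs
  · exact le_rfl
  · exact H1_nonneg E V i q

theorem g1_nonneg (E : KEnv) (V : ℕ → Bool) (i : ℕ) (u : ℕ × ℕ) : 0 ≤ E.g1 V i u := by
  unfold KEnv.g1
  have h1 := al_nonneg E
  have h2 := ww_nonneg E.δ i
  refine sum_nonneg fun k _ => ?_
  have h3 := Om1_nonneg E V i k
  split_ifs with h
  · refine mul_nonneg (mul_nonneg h1 h2) (mul_nonneg (by positivity) (add_nonneg ?_ ?_)) <;>
      positivity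
  · refine mul_nonneg (mul_nonneg h1 h2) (mul_nonneg (by positivity) (add_nonneg ?_ ?_)) <;>
      positivity
  · refine mul_nonneg (mul_nonneg h1 h2) (mul_nonneg (by positivity) (add_nonneg ?_ ?_)) <;>
      positivity
  · refine mul_nonneg (mul_nonneg h1 h2) (mul_nonneg (by positivity) (add_nonneg ?_ ?_)) <;>
      positivity
  · exact le_rfl

theorem g2_nonneg (E : KEnv) (V : ℕ → Bool) (i : ℕ) (u : ℕ × ℕ) : 0 ≤ E.g2 V i u := by
  unfold KEnv.g2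
  have h1 := al_nonneg E
  have h2 := ww_nonneg E.δ i
  refine sum_nonneg fun k _ => ?_
  have h3 := Om2_nonneg E V i k
  split_ifs with h
  · exact mul_nonneg (mul_nonneg h1 h2) (by positivity)
  · exact le_rfl

theorem SV_nonneg (V : ℕ → Bool) (m : ℕ) : 0 ≤ SV V m := by
  unfold SV
  exact sum_nonneg fun _ _ => by positivity

theorem TT_nonneg (E : KEnv) (i m : ℕ) : 0 ≤ E.TT i m := by
  unfold KEnv.TT
  have := ww_nonneg E.δ i
  positivity

theorem AA_nonneg (E : KEnv) (V : ℕ → Bool) (j n : ℕ) : 0 ≤ E.AA V j n := by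
  unfold KEnv.AA
  apply LP_nonneg
  intro p
  have h1 := aV_nonneg V p
  have h2 := gu_nonneg E j p
  have h3 := gh_nonneg E V j p
  positivity

theorem AN_nonneg (E : KEnv) (V : ℕ → Bool) (j I n : ℕ) : 0 ≤ E.AN V j I n := by
  unfold KEnv.AN
  apply LP_nonneg
  intro p
  have h1 := aV_nonneg V p
  have h2 := gu_nonneg E j p
  have h3 := ghn_nonneg E V j I p
  positivity

/-- `LP` depends on the values at the prime divisors only -/
theorem LP_congr {h h' : ℕ → ℝ} {n : ℕ} (hn : n ≠ 0)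
    (hc : ∀ p : ℕ, p.Prime → p ∣ n → h p = h' p) : LP h n = LP h' n := by
  unfold LP
  congr 1
  apply List.map_congr_left
  intro p hp
  have h1 := (Nat.mem_primeFactorsList hn).1 hp
  exact hc p h1.1 h1.2

/-- `LP` vanishes if one of the values vanishes -/
theorem LP_zero {h : ℕ → ℝ} {n p : ℕ} (hn : n ≠ 0) (hp : p.Prime) (hd : p ∣ n) (h0 : h p = 0) :
    LP h n = 0 := by
  rw [LP_div h hn hp hd, h0, zero_mul]

end Pool.Agent.Q63.KZ
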